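import Pool.Agent.K7.H52.DL.Exp

/-!
Polynomials in dilates.
-/

set_option autoImplicit false

open Filter Topology Set Metric

namespace Pool.Agent.K7.H52.DL

open Pool.Agent.K7.H52.SP H345 H345.Chi H370 H370.Loc

/-- the coefficient functions -/
structure Co (x₁ : ℝ) (a : ℂ → ℂ) : Prop where
  ex : Ex a
  an : ∃ H : ℝ, ∀ z : ℂ, H < z.im → AnalyticAt ℂ a z
  bd : ∃ X M : ℝ, ∀ z : ℂ, X ≤ z.re → AnalyticAt ℂ a z ∧ ‖a z‖ ≤ M
  gr : ∃ B : ℝ, 0 ≤ B ∧ Bd 0 B a
  sm : ∀ x ε : ℝ, x₁ < x → 0 < ε → Bd x ε a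

lemma Co.const {x₁ : ℝ} (c : ℂ) : Co x₁ fun _ => c where
  ex := Ex.const c
  an := ⟨0, fun _ _ => analyticAt_const⟩
  bd := ⟨0, ‖c‖, fun _ _ => ⟨analyticAt_const, le_rfl⟩⟩
  gr := ⟨1, zero_le_one, Bd.const one_pos c⟩
  sm := fun _ _ _ hε => Bd.const hε c

lemma Co.add {x₁ : ℝ} {a b : ℂ → ℂ} (ha : Co x₁ a) (hb : Co x₁ b) : Co x₁ fun z => a z + b z where
  ex := ha.ex.add hb.ex
  an := by
    obtain ⟨H, h⟩ := ha.an
    obtain ⟨K, k⟩ := hb.an
    exact ⟨max H K, fun z hz => (h z (lt_of_le_of_lt (le_max_left _ _) hz)).add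
      (k z (lt_of_le_of_lt (le_max_right _ _) hz))⟩
  bd := by
    obtain ⟨X, M, h⟩ := ha.bd
    obtain ⟨Y, N, k⟩ := hb.bd
    refine ⟨max X Y, M + N, fun z hz => ?_⟩
    have e1 := h z ((le_max_left _ _).trans hz)
    have e2 := k z ((le_max_right _ _).trans hz)
    exact ⟨e1.1.add e2.1, (norm_add_le _ _).trans (add_le_add e1.2 e2.2)⟩
  gr := by
    obtain ⟨B, hB, h⟩ := ha.gr
    obtain ⟨D, hD, k⟩ := hb.gr
    exact ⟨B + D + 1, by linarith, (h.mono le_rfl (by linarith)).add one_pos (k.mono le_rfl (by linarith))⟩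
  sm := fun x ε hx hε => by
    have h1 := ha.sm x (ε / 2) hx (by positivity)
    have h2 := hb.sm x (ε / 2) hx (by positivity)
    have h3 := h1.add (show 0 < ε / 2 by positivity) h2
    rwa [add_halves] at h3

lemma Co.mul {x₁ : ℝ} {a b : ℂ → ℂ} (ha : Co x₁ a) (hb : Co x₁ b) : Co x₁ fun z => a z * b z where
  ex := ha.ex.mul hb.ex
  an := by
    obtain ⟨H, h⟩ := ha.an
    obtain ⟨K, k⟩ := hb.an
    exact ⟨max H K, fun z hz => (h z (lt_of_le_of_lt (le_max_left _ _) hz)).mul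
      (k z (lt_of_le_of_lt (le_max_right _ _) hz))⟩
  bd := by
    obtain ⟨X, M, h⟩ := ha.bd
    obtain ⟨Y, N, k⟩ := hb.bd
    refine ⟨max X Y, M * N, fun z hz => ?_⟩
    have e1 := h z ((le_max_left _ _).trans hz)
    have e2 := k z ((le_max_right _ _).trans hz)
    refine ⟨e1.1.mul e2.1, ?_⟩
    rw [norm_mul]
    exact mul_le_mul e1.2 e2.2 (norm_nonneg _) ((norm_nonneg _).trans e1.2)
  gr := by
    obtain ⟨B, hB, h⟩ := ha.gr
    obtain ⟨D, hD, k⟩ := hb.gr
    exact ⟨B + D, by linarith, h.mul k⟩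
  sm := fun x ε hx hε => by
    have h1 := ha.sm x (ε / 2) hx (by positivity)
    have h2 := hb.sm x (ε / 2) hx (by positivity)
    have h3 := h1.mul h2
    rwa [add_halves] at h3

lemma Co.sum {x₁ : ℝ} {ι : Type*} (s : Finset ι) {a : ι → ℂ → ℂ} (h : ∀ i ∈ s, Co x₁ (a i)) :
    Co x₁ fun z => ∑ i ∈ s, a i z := by
  classical
  induction s using Finset.induction_on with
  | empty => simpa using Co.const (x₁ := x₁) 0
  | insert i s hi ih =>
    have h1 := (h i (Finset.mem_insert_self i s)).add (ih fun j hj => h j (Finset.mem_insert_of_mem hj))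
    have e : (fun z => ∑ j ∈ insert i s, a j z) = fun z => a i z + ∑ j ∈ s, a j z := by
      funext z
      rw [Finset.sum_insert hi]
    rwa [e]

lemma Co.pow {x₁ : ℝ} {a : ℂ → ℂ} (ha : Co x₁ a) (n : ℕ) : Co x₁ fun z => a z ^ n := by
  induction n with
  | zero => simpa using Co.const (x₁ := x₁) 1
  | succ n ih =>
    have := ih.mul ha
    simpa [pow_succ] using this

lemma Co.mono {x₁ x₂ : ℝ} {a : ℂ → ℂ} (ha : Co x₁ a) (h : x₁ ≤ x₂) : Co x₂ a where
  ex := ha.ex
  an := ha.an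
  bd := ha.bd
  gr := ha.gr
  sm := fun x ε hx hε => ha.sm x ε (lt_of_le_of_lt h hx) hε

lemma uu_co {P : Polynomial ℂ} {lam h y : ℝ} (hlam : 0 < lam) (hy : 0 ≤ y) (hy1 : y ≤ 1 / 2)
    (H : SmallZ (1 / 2 + y)) : Co (y / lam) (uu P lam h) where
  ex := uu_ex P h hlam
  an := ⟨|h| / lam, fun z hz => uu_an P (arg_ne_im hlam hz)⟩
  bd := by
    obtain ⟨C, hC, hb⟩ := DD_bdd P
    refine ⟨2 / lam, C, fun z hz => ?_⟩
    rw [div_le_iff₀ hlam] at hz
    have e : (lam * z + (1 / 2 + h * Complex.I) : ℂ).re = lam * z.re + 1 / 2 := by simp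
    refine ⟨uu_an P (ne_one_of_re' (by rw [e]; linarith)), hb _ (by rw [e]; linarith)⟩
  gr := by
    obtain ⟨B, hB, hB2⟩ := DD_growth P 0
    refine ⟨B + 1, by linarith, ?_⟩
    have := uu_of_DD (y := 0) (h := h) hlam hB one_pos (hB2.mono (by norm_num) le_rfl)
    rwa [zero_div] at this
  sm := fun x ε hx hε => by
    rw [div_lt_iff₀ hlam] at hx
    have h1 := zeta_small (ϑ := 1 / 2 + (y + lam * x) / 2) (ε := ε / 4) (by linarith) (by linarith) H
      (by linarith) (by positivity)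
    have h2 := DD_small (P := P) h1 (show 0 < (lam * x - y) / 2 by linarith) (show 0 < ε / 4 by positivity)
    have h3 := uu_of_DD (y := lam * x) (h := h) hlam (by positivity) (show 0 < ε / 4 by positivity)
      (h2.mono (le_of_eq (by ring)) le_rfl)
    refine h3.mono (le_of_eq ?_) (by linarith)
    field_simp

/-- the root bound -/
lemma root_bound {d : ℕ} (hd : 1 ≤ d) {a : ℕ → ℂ} {w F : ℂ} {M : ℝ} (hM : 1 ≤ M)
    (ha : ∀ k ≤ d, ‖a k‖ ≤ M) (hF : ‖F‖ ≤ M) (h : F = ∑ k ∈ Finset.range (d + 1), a k * w ^ k) :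
    ‖a d * w‖ ≤ (d + 1) * M ^ d := by
  by_contra hcon
  push Not at hcon
  set G := a d * w with hG
  set g := ‖G‖ with hg
  have hM0 : 0 < M := by linarith
  have hMd : 1 ≤ M ^ d := one_le_pow₀ hM
  have hd0 : (0 : ℝ) ≤ d := Nat.cast_nonneg d
  have hg1 : 1 ≤ g := by nlinarith
  obtain ⟨e, rfl⟩ : ∃ e, d = e + 1 := ⟨d - 1, by omega⟩
  have e1 : G ^ (e + 1) = a (e + 1) ^ e * F - ∑ k ∈ Finset.range (e + 1), a k * a (e + 1) ^ (e - k) * G ^ k := by
    rw [h, Finset.sum_range_succ, mul_add, Finset.mul_sum]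
    have e2 : ∑ k ∈ Finset.range (e + 1), a (e + 1) ^ e * (a k * w ^ k) =
        ∑ k ∈ Finset.range (e + 1), a k * a (e + 1) ^ (e - k) * G ^ k := by
      refine Finset.sum_congr rfl fun k hk => ?_
      rw [Finset.mem_range] at hk
      have e3 : a (e + 1) ^ e = a (e + 1) ^ (e - k) * a (e + 1) ^ k := by
        rw [← pow_add]
        congr 1
        omega
      rw [hG, mul_pow, e3]
      ring
    rw [e2, hG, mul_pow]
    ring
  have hA : ‖a (e + 1)‖ ≤ M := ha _ le_rfl
  have e4 : g ^ (e + 1) ≤ M ^ (e + 1) * g ^ e + (e + 1) * (M ^ (e + 1) * g ^ e) := by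
    calc g ^ (e + 1) = ‖G ^ (e + 1)‖ := by rw [norm_pow]
      _ ≤ ‖a (e + 1) ^ e * F‖ + ‖∑ k ∈ Finset.range (e + 1), a k * a (e + 1) ^ (e - k) * G ^ k‖ := by
          rw [e1]; exact norm_sub_le _ _
      _ ≤ M ^ e * M + ∑ k ∈ Finset.range (e + 1), M ^ (e + 1) * g ^ e := by
          refine add_le_add ?_ ((norm_sum_le _ _).trans (Finset.sum_le_sum fun k hk => ?_))
          · rw [norm_mul, norm_pow]
            gcongr
          · rw [Finset.mem_range] at hk
            rw [norm_mul, norm_mul, norm_pow, norm_pow]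
            have h1 : ‖a k‖ ≤ M := ha k (by omega)
            have h2 : ‖a (e + 1)‖ ^ (e - k) ≤ M ^ e := by
              calc ‖a (e + 1)‖ ^ (e - k) ≤ M ^ (e - k) := by gcongr
                _ ≤ M ^ e := pow_le_pow_right₀ hM (by omega)
            have h3 : ‖G‖ ^ k ≤ g ^ e := pow_le_pow_right₀ hg1 (by omega)
            calc ‖a k‖ * ‖a (e + 1)‖ ^ (e - k) * ‖G‖ ^ k ≤ M * M ^ e * g ^ e := by gcongr
              _ = _ := by ring
      _ ≤ _ := by
          rw [Finset.sum_const, Finset.card_range, nsmul_eq_mul]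
          have h4 : M ^ e * M ≤ M ^ (e + 1) * g ^ e := by
            have : 1 ≤ g ^ e := one_le_pow₀ hg1
            calc M ^ e * M = M ^ (e + 1) * 1 := by ring
              _ ≤ _ := by gcongr
          push_cast
          linarith
  have hge : 0 < g ^ e := by positivity
  have e5 : g * g ^ e ≤ ((e + 2) * M ^ (e + 1)) * g ^ e := by
    calc g * g ^ e = g ^ (e + 1) := by ring
      _ ≤ _ := e4
      _ = _ := by ring
  have e6 := le_of_mul_le_mul_right e5 hge
  push_cast at hcon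
  have e7 : ((e : ℝ) + 1 + 1) * M ^ (e + 1) = (e + 2) * M ^ (e + 1) := by ring
  rw [e7] at hcon
  linarith

/-- few zeros of `op l` from small values of a multiple -/
theorem few_of (l : List ℂ) {θ H Y₀ : ℝ} {A : ℂ → ℂ} (hA : ∀ s : ℂ, H < s.im → AnalyticAt ℂ A s)
    (hsm : ∀ x ε : ℝ, θ < x → 0 < ε → Bd x ε fun s => op l s * A s)
    (hlow : ∀ Y : ℝ, Y₀ ≤ Y → ∃ a : ℝ, 0 < a ∧ ∀ s : ℂ, s.re = Y → a ≤ ‖A s‖) : FewR l θ := by
  classical
  intro δ₀ ε hδ₀ hε
  set δ : ℝ := min δ₀ 1 with hδdef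
  have hδ : 0 < δ := lt_min hδ₀ one_pos
  have hδ1 : δ ≤ 1 := min_le_right _ _
  have hδ2 : δ ≤ δ₀ := min_le_left _ _
  obtain ⟨X, hX2, hXne, hXlow⟩ := op_far l
  set Xc : ℝ := X + 1 + |Y₀| + |θ| with hXc
  have hY₀ := le_abs_self Y₀
  have hY₀' := abs_nonneg Y₀
  have hθ' := le_abs_self θ
  have hθ0 := abs_nonneg θ
  obtain ⟨a₁, ha₁, halow₁⟩ := hXlow Xc (by linarith)
  obtain ⟨a₂, ha₂, halow₂⟩ := hlow Xc (by linarith)
  set a : ℝ := a₁ * a₂ with hadef
  have ha : 0 < a := by positivity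
  set R : ℝ := Xc - θ - δ / 4 with hR
  set r : ℝ := Xc - θ - δ / 2 with hr
  have hr0 : 0 < r := by linarith
  have hrR : r < R := by linarith
  have hlogpos : 0 < Real.log (R / r) := Real.log_pos (by rw [lt_div_iff₀ hr0]; linarith)
  set N : ℝ := (⌊2 * 1 / (δ / 2)⌋₊ : ℝ) + 1 with hN
  have hN0 : 0 < N := by positivity
  set η : ℝ := ε * Real.log (R / r) / (2 * N) with hη
  have hη0 : 0 < η := by positivity
  obtain ⟨T₁, hT₁, hop⟩ := hsm (θ + δ / 4) η (by linarith) hη0 (1 + R) (by linarith)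
  obtain ⟨T₂, hT₂, hab⟩ := absorb (1 / a) hη0
  have hH := le_abs_self H
  have hH0 := abs_nonneg H
  refine ⟨T₁ + T₂ + R + |H| + 4, ?_⟩
  intro T hT S hS
  have hL0 : 0 < Real.log T := Real.log_pos (by linarith)
  set L := Real.log T with hL
  have hcov := cover (f := op l) (T := T) (W := 1) (h := δ / 2) (b := 2 * η * L / Real.log (R / r))
    (by positivity) zero_le_one S (fun s hs => (hS s hs).2) (by
      intro t ht S' hS' hS'2
      have htW := abs_le.1 ht
      set c : ℂ := ⟨Xc, t⟩ with hc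
      -- discard the points far to the right
      set S'' : Finset ℂ := S'.filter (fun s => s.re < X) with hS''
      have hsum : ∑ s ∈ S', (mult (op l) s : ℝ) = ∑ s ∈ S'', (mult (op l) s : ℝ) := by
        rw [hS'', Finset.sum_filter]
        refine Finset.sum_congr rfl fun s hs => ?_
        by_cases h : s.re < X
        · rw [if_pos h]
        · rw [if_neg h]
          push Not at h
          have him := abs_le.1 (hS s (hS' hs)).2
          rw [mult_zero (op_an l (ne_one_of_im' (by linarith))) (hXne s h)]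
          simp
      rw [hsum]
      have hwin : ∀ z ∈ closedBall c R, θ + δ / 4 ≤ z.re ∧ |z.im - T| ≤ 1 + R ∧ z ≠ 1 ∧ H < z.im := by
        intro z hz
        obtain ⟨h1, h2, h3, h4⟩ := ball_coord hz
        simp only [hc] at h1 h2 h3 h4
        refine ⟨by linarith, abs_le.2 ⟨by linarith, by linarith⟩, ne_one_of_im' (by linarith), by linarith⟩
      have hFball : AnalyticOnNhd ℂ (fun s => op l s * A s) (closedBall c R) := fun z hz =>
        (op_an l (hwin z hz).2.2.1).mul (hA z (hwin z hz).2.2.2)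
      have hca : a ≤ ‖op l c * A c‖ := by
        rw [norm_mul, hadef]
        exact mul_le_mul (halow₁ c rfl) (halow₂ c rfl) ha₂.le (norm_nonneg _)
      have hFc : op l c * A c ≠ 0 := by
        intro h0
        rw [h0, norm_zero] at hca
        linarith
      have hS3 : ∀ s ∈ S'', s ∈ closedBall c r := by
        intro s hs
        rw [hS'', Finset.mem_filter] at hs
        obtain ⟨hs1, hs2⟩ := hs
        have h1 := (hS s (hS' hs1)).1
        have h2 := hS'2 s hs1
        rw [mem_closedBall, dist_eq_norm]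
        refine (Complex.norm_le_abs_re_add_abs_im _).trans ?_
        have e1 : (s - c).re = s.re - Xc := by simp [hc]
        have e2 : (s - c).im = s.im - t := by simp [hc]
        rw [e1, e2]
        have h3 : |s.re - Xc| ≤ Xc - θ - δ := by
          rw [abs_le]
          constructor <;> linarith
        linarith
      have hmm : ∑ s ∈ S'', (mult (op l) s : ℝ) ≤ ∑ s ∈ S'', (mult (fun s => op l s * A s) s : ℝ) := by
        refine Finset.sum_le_sum fun s hs => ?_
        have hsR := closedBall_subset_closedBall hrR.le (hS3 s hs)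
        have hord : analyticOrderAt (fun s => op l s * A s) s ≠ ⊤ :=
          order_ne_top (convex_closedBall c R).isPreconnected hFball
            (mem_closedBall_self (by linarith)) hFc hsR
        exact_mod_cast NM.mult_le_mul (op_an l (hwin s hsR).2.2.1) (hA s (hwin s hsR).2.2.2) hord
      refine hmm.trans ?_
      refine jn (R := R) (r := r) (η := η) (L := L) (c := c) hr0 hrR (by positivity) hFball
        (fun z hz => hop T (by linarith) z (hwin z hz).1 (hwin z hz).2.1) ?_ S'' hS3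
      have h2 : 1 / a ≤ Real.exp (η * L) := hab T (by linarith)
      rw [Real.exp_neg]
      refine le_trans ?_ hca
      rw [div_le_iff₀ ha] at h2
      rw [inv_le_comm₀ (Real.exp_pos _) ha]
      rw [inv_eq_one_div, div_le_iff₀ ha]
      exact h2)
  refine hcov.trans (le_of_eq ?_)
  have e : ((⌊2 * 1 / (δ / 2)⌋₊ : ℝ) + 1) = N := rfl
  rw [e, hη]
  field_simp

end Pool.Agent.K7.H52.DL
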