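import Pool.Agent.K7.H52.DL.Alg

/-!
Polynomials in dilates: the main theorem.
-/

set_option autoImplicit false

open Filter Topology Set Metric

namespace Pool.Agent.K7.H52.DL

open Pool.Agent.K7.H52.SP

lemma Bd.fin {ι : Type*} (s : Finset ι) {x b : ℝ} {f : ι → ℂ → ℂ} (h : ∀ j ∈ s, Bd x b (f j)) {W : ℝ}
    (hW : 0 ≤ W) : ∃ T₀ : ℝ, 3 ≤ T₀ ∧ ∀ T : ℝ, T₀ ≤ T → ∀ j ∈ s, ∀ z : ℂ, x ≤ z.re → |z.im - T| ≤ W →
      ‖f j z‖ ≤ Real.exp (b * Real.log T) := by
  classical
  induction s using Finset.induction_on with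
  | empty => exact ⟨3, le_rfl, fun T _ j hj => by simp at hj⟩
  | insert a s ha ih =>
    obtain ⟨T₁, h1, h2⟩ := ih fun j hj => h j (Finset.mem_insert_of_mem hj)
    obtain ⟨T₂, h3, h4⟩ := h a (Finset.mem_insert_self a s) W hW
    refine ⟨max T₁ T₂, h1.trans (le_max_left _ _), fun T hT j hj => ?_⟩
    rcases Finset.mem_insert.1 hj with rfl | hj
    · exact h4 T ((le_max_right _ _).trans hT)
    · exact h2 T ((le_max_left _ _).trans hT) j hj

theorem alg_step {P : Polynomial ℂ} (hP : P ≠ 0) {lam h y q : ℝ} (hlam : 0 < lam) (hy : 0 < y)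
    (hq : 1 < q) {d : ℕ} (hd : 1 ≤ d) {a : ℕ → ℂ → ℂ}
    (ha : ∀ k ≤ d, Co (y / (q * lam)) (a k))
    (hne : ∃ X c ν : ℝ, 0 < c ∧ ∀ z : ℂ, X ≤ z.re → c * Real.exp (-(ν * z.re)) ≤ ‖a d z‖)
    (hF : ∀ ε : ℝ, 0 < ε → Bd 0 ε fun z => ∑ k ∈ Finset.range (d + 1), a k z * uu P lam h z ^ k) :
    SmallZ (1 / 2 + y / q) := by
  have hq0 : 0 < q := by linarith
  have hlC : (lam : ℂ) ≠ 0 := by exact_mod_cast hlam.ne'
  -- the product is small
  have hG : ∀ x ε : ℝ, y / (q * lam) < x → 0 < ε → Bd x ε fun z => a d z * uu P lam h z := by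
    intro x ε hx hε W hW
    have hx0 : 0 < x := lt_trans (by positivity) hx
    set e : ℝ := ε / (d + 1) with he
    have he0 : 0 < e := by positivity
    obtain ⟨T₁, h1, h2⟩ := Bd.fin (Finset.range (d + 1)) (f := a) (x := x) (b := e)
      (fun k hk => (ha k (by rw [Finset.mem_range] at hk; omega)).sm x e hx he0) hW
    obtain ⟨T₂, h3, h4⟩ := (hF e he0).mono hx0.le le_rfl W hW
    obtain ⟨T₃, h5, h6⟩ := absorb ((d : ℝ) + 1) he0
    refine ⟨T₁ + T₂ + T₃, by linarith, fun T hT z hz hz2 => ?_⟩
    have hL0 : 0 < Real.log T := Real.log_pos (by linarith)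
    have h7 := root_bound (a := fun k => a k z) (w := uu P lam h z) hd
      (Real.one_le_exp (by positivity : 0 ≤ e * Real.log T))
      (fun k hk => h2 T (by linarith) k (by rw [Finset.mem_range]; omega) z hz hz2)
      (h4 T (by linarith) z hz hz2) rfl
    refine h7.trans ?_
    calc ((d : ℝ) + 1) * Real.exp (e * Real.log T) ^ d ≤ Real.exp (e * Real.log T) * Real.exp (e * Real.log T) ^ d := by
          gcongr
          exact h6 T (by linarith)
      _ = Real.exp (ε * Real.log T) := by
          rw [← pow_succ', ← Real.exp_nat_mul]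
          congr 1
          rw [he]
          push_cast
          field_simp
  obtain ⟨l, c₀, hc₀, hl⟩ := DD_op hP
  -- the plane of `s`
  set sh : ℂ := 1 / 2 + h * Complex.I with hsh
  set A : ℂ → ℂ := fun s => a d (((1 / lam : ℝ) : ℂ) * s + -(sh / lam)) with hA
  have hshre : (-(sh / lam)).re = -(1 / 2 / lam) := by
    rw [Complex.neg_re, Complex.div_ofReal_re, hsh, uu_re]
  have hfew : FewR l (1 / 2 + y / q) := by
    obtain ⟨H, hH⟩ := (ha d le_rfl).an
    obtain ⟨X, c, ν, hc, hlow⟩ := hne
    refine few_of l (A := A) (H := lam * |H| + |h|) (Y₀ := lam * X + 1 / 2) ?_ ?_ ?_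
    · intro s hs
      refine AnalyticAt.comp (g := a d) (f := fun s : ℂ => ((1 / lam : ℝ) : ℂ) * s + -(sh / lam)) (hH _ ?_)
        (by fun_prop)
      have e1 : (((1 / lam : ℝ) : ℂ) * s + -(sh / lam)).im = (s.im - h) / lam := by
        rw [Complex.add_im, Complex.neg_im, Complex.div_ofReal_im, hsh, uu_im]
        simp
        field_simp
        ring
      rw [e1, lt_div_iff₀ hlam]
      have h1 := le_abs_self H
      have h2 := le_abs_self h
      nlinarith
    · intro x ε hx hε
      have h1 := hG ((x - 1 / 2) / lam) (ε / 3) (by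
        rw [div_lt_div_iff₀ (by positivity) hlam]
        have : y / q < x - 1 / 2 := by linarith
        rw [div_lt_iff₀ hq0] at this
        nlinarith) (by positivity)
      have h2 := h1.affine (lam := 1 / lam) (by positivity) (by positivity) (show 0 < ε / 3 by positivity)
        (-(sh / lam))
      have h3 := h2.const_mul (show 0 < ε / 3 by positivity) c₀⁻¹
      refine (h3.mono (le_of_eq ?_) (by linarith)).congr (H := 0) fun s _ hs => ?_
      · rw [hshre]
        field_simp
        ring
      · have e2 : uu P lam h (((1 / lam : ℝ) : ℂ) * s + -(sh / lam)) = DD P s := by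
          unfold uu
          congr 1
          rw [hsh]
          push_cast
          field_simp
          ring
        simp only [hA]
        rw [e2, hl s (ne_one_of_im' hs)]
        field_simp
    · intro Y hY
      refine ⟨c * Real.exp (-(ν * ((Y - 1 / 2) / lam))), by positivity, fun s hs => ?_⟩
      have e1 : (((1 / lam : ℝ) : ℂ) * s + -(sh / lam)).re = (Y - 1 / 2) / lam := by
        rw [Complex.add_re, hshre, ← hs]
        simp
        field_simp
        ring
      have h1 := hlow (((1 / lam : ℝ) : ℂ) * s + -(sh / lam)) (by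
        rw [e1, le_div_iff₀ hlam]
        linarith)
      rwa [e1] at h1
  exact small_of_fewR l (by have : 0 < y / q := by positivity
                            linarith) hfew

lemma small_one : SmallZ 1 := fun σ h1 h2 => by linarith

lemma small_half_of_step {q : ℝ} (hq : 1 < q)
    (h : ∀ y : ℝ, 0 < y → y ≤ 1 / 2 → SmallZ (1 / 2 + y) → SmallZ (1 / 2 + y / q)) : SmallZ (1 / 2) := by
  have hn : ∀ n : ℕ, SmallZ (1 / 2 + 1 / 2 / q ^ n) := by
    intro n
    induction n with
    | zero =>
      rw [pow_zero, div_one, add_halves]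
      exact small_one
    | succ n ih =>
      have := h _ (by positivity) (div_le_self (by norm_num) (one_le_pow₀ hq.le)) ih
      rwa [div_div, ← pow_succ] at this
  intro σ hσ hσ1 ε hε
  have h1 : Tendsto (fun n : ℕ => (1 : ℝ) / 2 / q ^ n) atTop (𝓝 0) :=
    tendsto_const_nhds.div_atTop (tendsto_pow_atTop_atTop_of_one_lt hq)
  obtain ⟨n, hn'⟩ := (h1.eventually_lt_const (show 0 < σ - 1 / 2 by linarith)).exists
  exact hn n σ (by linarith) hσ1 ε hε

/-- from the line to the half plane -/
lemma co_line {x₁ : ℝ} {F : ℂ → ℂ} (hF : Co x₁ F) (h : ∀ ε : ℝ, 0 < ε → Ln 0 ε F) {ε : ℝ} (hε : 0 < ε) :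
    Bd 0 ε F := by
  obtain ⟨H, hH⟩ := hF.an
  obtain ⟨X, M, hX⟩ := hF.bd
  obtain ⟨B, hB, hgr⟩ := hF.gr
  have h1 : Bd (|X| + 1) (ε / 2) F := Bd.of_bdd (M := M) (by positivity) fun z hz => (hX z (by
    have := le_abs_self X
    linarith)).2
  have h2 := pl (F := F) (a := 0) (X := |X| + 1) (H := H) (by positivity)
    (fun z _ hz => (hH z hz).differentiableAt) hgr (h (ε / 2) (by positivity)) h1 le_rfl
    (x := 0) le_rfl (by positivity) (show 0 < ε / 2 by positivity)
  refine h2.mono le_rfl (le_of_eq ?_)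
  rw [sub_self, zero_mul]
  ring

/-- zero on the right implies zero above -/
lemma zero_above {a : ℂ → ℂ} {H X : ℝ} (han : ∀ z : ℂ, H < z.im → AnalyticAt ℂ a z)
    (h : ∀ z : ℂ, X ≤ z.re → a z = 0) : ∀ z : ℂ, H < z.im → a z = 0 := by
  set U : Set ℂ := {z : ℂ | H < z.im} with hU
  have hUc : IsPreconnected U := (convex_halfSpace_im_gt H).isPreconnected
  have h1 : AnalyticOnNhd ℂ a U := fun z hz => han z hz
  set z₀ : ℂ := ⟨X + 1, H + 1⟩ with hz₀
  have hz₀U : z₀ ∈ U := by
    show H < z₀.im
    simp [hz₀]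
  have h2 : a =ᶠ[𝓝 z₀] 0 := by
    have hopen : IsOpen {z : ℂ | X < z.re} := isOpen_lt continuous_const Complex.continuous_re
    filter_upwards [hopen.mem_nhds (show X < z₀.re by simp [hz₀])] with z hz
    exact h z hz.le
  intro z hz
  exact h1.eqOn_zero_of_preconnected_of_eventuallyEq_zero hUc hz₀U h2 hz

section

variable {R : Type} [CommRing R] (φ : ℂ → R →+* ℂ)

/-- the value of the polynomial; the coefficients are functions too -/
noncomputable def PQ {m : ℕ} (P : Fin m → Polynomial ℂ) (lam h : Fin m → ℝ) (Q : MvPolynomial (Fin m) R)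
    (z : ℂ) : ℂ := MvPolynomial.eval₂ (φ z) (fun j => uu (P j) (lam j) (h j) z) Q

/-- induction over the values of polynomials -/
lemma PQ_ind {m : ℕ} (P : Fin m → Polynomial ℂ) (lam h : Fin m → ℝ) (Pr : (ℂ → ℂ) → Prop)
    (hc : ∀ c : R, Pr fun z => φ z c)
    (ha : ∀ f g : ℂ → ℂ, Pr f → Pr g → Pr fun z => f z + g z)
    (hm : ∀ f g : ℂ → ℂ, Pr f → Pr g → Pr fun z => f z * g z)
    (hu : ∀ j, Pr (uu (P j) (lam j) (h j))) (Q : MvPolynomial (Fin m) R) : Pr (PQ φ P lam h Q) := by
  induction Q using MvPolynomial.induction_on with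
  | C c =>
    have e : PQ φ P lam h (MvPolynomial.C c) = fun z => φ z c := by
      funext z
      simp [PQ]
    rw [e]
    exact hc c
  | add p q hp hq =>
    have e : PQ φ P lam h (p + q) = fun z => PQ φ P lam h p z + PQ φ P lam h q z := by
      funext z
      simp [PQ, MvPolynomial.eval₂_add]
    rw [e]
    exact ha _ _ hp hq
  | mul_X p i hp =>
    have e : PQ φ P lam h (p * MvPolynomial.X i) = fun z => PQ φ P lam h p z * uu (P i) (lam i) (h i) z := by
      funext z
      simp [PQ, MvPolynomial.eval₂_mul]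
    rw [e]
    exact hm _ _ hp (hu i)

lemma PQ_co {m : ℕ} {P : Fin m → Polynomial ℂ} {lam h : Fin m → ℝ} {x₁ : ℝ} (hφ : ∀ r : R, Co x₁ fun z => φ z r)
    (hu : ∀ j, Co x₁ (uu (P j) (lam j) (h j))) (Q : MvPolynomial (Fin m) R) : Co x₁ (PQ φ P lam h Q) :=
  PQ_ind φ P lam h (Co x₁) hφ (fun _ _ hf hg => hf.add hg) (fun _ _ hf hg => hf.mul hg) hu Q

/-- one variable split off -/
noncomputable def FP {m : ℕ} (P : Fin (m + 1) → Polynomial ℂ) (lam h : Fin (m + 1) → ℝ)
    (p : Polynomial (MvPolynomial (Fin m) R)) (z : ℂ) : ℂ :=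
  ∑ k ∈ Finset.range (p.natDegree + 1), PQ φ (fun j => P j.succ) (fun j => lam j.succ) (fun j => h j.succ)
    (p.coeff k) z * uu (P 0) (lam 0) (h 0) z ^ k

lemma FP_eq {m : ℕ} (P : Fin (m + 1) → Polynomial ℂ) (lam h : Fin (m + 1) → ℝ)
    (p : Polynomial (MvPolynomial (Fin m) R)) (z : ℂ) : FP φ P lam h p z =
      p.eval₂ (MvPolynomial.eval₂Hom (φ z) fun j : Fin m => uu (P j.succ) (lam j.succ) (h j.succ) z)
        (uu (P 0) (lam 0) (h 0) z) := by
  rw [Polynomial.eval₂_eq_sum_range]
  rfl

lemma eval₂_split {m : ℕ} (f : R →+* ℂ) (y : ℂ) (s : Fin m → ℂ) (Q : MvPolynomial (Fin (m + 1)) R) :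
    MvPolynomial.eval₂ f (Fin.cons y s : Fin (m + 1) → ℂ) Q =
      (MvPolynomial.finSuccEquiv R m Q).eval₂ (MvPolynomial.eval₂Hom f s) y := by
  induction Q using MvPolynomial.induction_on with
  | C c =>
    have h2 : MvPolynomial.finSuccEquiv R m (MvPolynomial.C c) = Polynomial.C (MvPolynomial.C c) := by
      have h1 := AlgEquiv.commutes (MvPolynomial.finSuccEquiv R m) c
      rwa [Polynomial.algebraMap_apply, MvPolynomial.algebraMap_eq, MvPolynomial.algebraMap_eq] at h1
    rw [h2, Polynomial.eval₂_C, MvPolynomial.eval₂_C]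
    simp
  | add p q hp hq =>
    rw [MvPolynomial.eval₂_add, hp, hq, map_add, Polynomial.eval₂_add]
  | mul_X p i hp =>
    rw [MvPolynomial.eval₂_mul, hp, map_mul, Polynomial.eval₂_mul, MvPolynomial.eval₂_X]
    congr 1
    refine Fin.cases ?_ (fun j => ?_) i
    · rw [MvPolynomial.finSuccEquiv_X_zero, Polynomial.eval₂_X]
      rfl
    · rw [MvPolynomial.finSuccEquiv_X_succ, Polynomial.eval₂_C]
      simp

lemma PQ_eq {m : ℕ} (P : Fin (m + 1) → Polynomial ℂ) (lam h : Fin (m + 1) → ℝ)
    (Q : MvPolynomial (Fin (m + 1)) R) (z : ℂ) :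
    PQ φ P lam h Q z = FP φ P lam h (MvPolynomial.finSuccEquiv R m Q) z := by
  rw [FP_eq, ← eval₂_split]
  unfold PQ
  congr 1
  funext j
  refine Fin.cases ?_ (fun i => ?_) j
  · simp
  · simp

theorem alg_main (hφ : ∀ (x₁ : ℝ) (r : R), Co x₁ fun z => φ z r) : ∀ (m : ℕ) (P : Fin m → Polynomial ℂ)
    (lam h : Fin m → ℝ), (∀ j, P j ≠ 0) → (∀ j, 0 < lam j) →
    StrictMono lam → ∀ Q : MvPolynomial (Fin m) R,
      (∀ (r : R) (H : ℝ), ∃ z : ℂ, H < z.im ∧ PQ φ P lam h Q z ≠ φ z r) →
      (∀ ε : ℝ, 0 < ε → Ln 0 ε (PQ φ P lam h Q)) → SmallZ (1 / 2) := by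
  intro m
  induction m with
  | zero =>
    intro P lam h _ _ _ Q hnc _
    exfalso
    obtain ⟨r, rfl⟩ : ∃ r : R, Q = MvPolynomial.C r := ⟨_, MvPolynomial.eq_C_of_isEmpty Q⟩
    obtain ⟨z, _, hz⟩ := hnc r 0
    apply hz
    unfold PQ
    rw [MvPolynomial.eval₂_C]
  | succ m ihm =>
    intro P lam h hP hlam hmono Q hnc hline
    obtain ⟨q, hq, hmin⟩ := exists_ratio (hlam 0) (fun j => hmono (Fin.succ_pos j))
    have hq0 : 0 < q := by linarith
    -- the induction over the degree
    have key : ∀ (n : ℕ) (p : Polynomial (MvPolynomial (Fin m) R)), p.natDegree = n →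
        (∀ (r : R) (H : ℝ), ∃ z : ℂ, H < z.im ∧ FP φ P lam h p z ≠ φ z r) →
        (∀ ε : ℝ, 0 < ε → Ln 0 ε (FP φ P lam h p)) → SmallZ (1 / 2) := by
      intro n
      induction n using Nat.strong_induction_on with
      | _ n ihn =>
        intro p hpn hnc hline
        have hco0 : ∀ k, Co (1 / 2 / lam 0) (PQ φ (fun j => P j.succ) (fun j => lam j.succ)
            (fun j => h j.succ) (p.coeff k)) := by
          intro k
          refine PQ_co φ (hφ _) (fun j => ?_) _
          refine (uu_co (hlam j.succ) (by norm_num) le_rfl (by rw [add_halves]; exact small_one)).mono ?_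
          have h1 := hmin j
          have h2 := hlam 0
          have h3 := hlam j.succ
          gcongr
          nlinarith
        rcases Nat.eq_zero_or_pos n with rfl | hn
        · -- no dependence on the smallest dilate
          have e : FP φ P lam h p = PQ φ (fun j => P j.succ) (fun j => lam j.succ) (fun j => h j.succ)
              (p.coeff 0) := by
            funext z
            unfold FP
            rw [hpn]
            simp
          rw [e] at hnc hline
          exact ihm _ _ _ (fun j => hP _) (fun j => hlam _) (hmono.comp (Fin.strictMono_succ)) _ hnc hline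
        · obtain ⟨H, hH⟩ := (hco0 n).an
          obtain ⟨X₀, M, hX₀⟩ := (hco0 n).bd
          rcases (hco0 n).ex.lower (fun z hz => (hX₀ z hz).1) (fun z hz => (hX₀ z hz).2) with h0 | hlow
          · -- the leading coefficient vanishes
            have h1 := zero_above hH h0
            have e : ∀ z : ℂ, H < z.im → FP φ P lam h p z = FP φ P lam h p.eraseLead z := by
              intro z hz
              rw [FP_eq, FP_eq]
              conv_lhs => rw [← Polynomial.eraseLead_add_monomial_natDegree_leadingCoeff p]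
              rw [Polynomial.eval₂_add, Polynomial.eval₂_monomial]
              have h2 := h1 z hz
              unfold PQ at h2
              rw [← hpn] at h2
              unfold Polynomial.leadingCoeff
              rw [MvPolynomial.coe_eval₂Hom, h2, zero_mul, add_zero]
            refine ihn p.eraseLead.natDegree ?_ p.eraseLead rfl ?_ ?_
            · rcases Polynomial.eraseLead_natDegree_lt_or_eraseLead_eq_zero p with h2 | h2
              · omega
              · rw [h2, Polynomial.natDegree_zero]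
                exact hn
            · intro c H'
              obtain ⟨z, hz, hz2⟩ := hnc c (max H H')
              refine ⟨z, lt_of_le_of_lt (le_max_right _ _) hz, ?_⟩
              rwa [← e z (lt_of_le_of_lt (le_max_left _ _) hz)]
            · intro ε hε
              exact (hline ε hε).congr (H := H) fun z _ hz => e z hz
          · -- the main case
            refine small_half_of_step hq fun y hy hy1 hsm => ?_
            have hco : ∀ k ≤ n, Co (y / (q * lam 0)) (PQ φ (fun j => P j.succ) (fun j => lam j.succ)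
                (fun j => h j.succ) (p.coeff k)) := by
              intro k _
              refine PQ_co φ (hφ _) (fun j => ?_) _
              refine (uu_co (hlam j.succ) hy.le hy1 hsm).mono ?_
              have h1 := hmin j
              have h2 := hlam 0
              gcongr
            have hcoF : Co (1 / 2 / lam 0) (FP φ P lam h p) := by
              unfold FP
              refine Co.sum _ fun k _ => (hco0 k).mul (Co.pow ?_ k)
              exact uu_co (hlam 0) (by norm_num) le_rfl (by rw [add_halves]; exact small_one)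
            refine alg_step (hP 0) (h := h 0) (hlam 0) hy hq hn hco hlow fun ε hε => ?_
            have := co_line hcoF hline hε
            unfold FP at this
            rwa [hpn] at this
    refine key _ (MvPolynomial.finSuccEquiv R m Q) rfl ?_ ?_
    · intro c H
      obtain ⟨z, h1, h2⟩ := hnc c H
      refine ⟨z, h1, ?_⟩
      rwa [← PQ_eq]
    · intro ε hε
      have : FP φ P lam h (MvPolynomial.finSuccEquiv R m Q) = PQ φ P lam h Q := by
        funext z
        rw [PQ_eq]
      rw [this]
      exact hline ε hε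

end

end Pool.Agent.K7.H52.DL
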