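import Pool.Agent.K7.H52.NM.Crit

/-!
Bounds by powers of the height in right half planes.
-/

set_option autoImplicit false

open Filter Topology Set Metric

namespace Pool.Agent.K7.H52.DL

open Pool.Agent.K7.H52.SP

/-- `|f| ≤ T^b` for `Re z ≥ x` near height `T` -/
def Bd (x b : ℝ) (f : ℂ → ℂ) : Prop := ∀ W : ℝ, 0 ≤ W → ∃ T₀ : ℝ, 3 ≤ T₀ ∧ ∀ T : ℝ, T₀ ≤ T →
  ∀ z : ℂ, x ≤ z.re → |z.im - T| ≤ W → ‖f z‖ ≤ Real.exp (b * Real.log T)

/-- `|f| ≤ T^b` on the line `Re z = x` -/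
def Ln (x b : ℝ) (f : ℂ → ℂ) : Prop := ∀ W : ℝ, 0 ≤ W → ∃ T₀ : ℝ, 3 ≤ T₀ ∧ ∀ T : ℝ, T₀ ≤ T →
  ∀ z : ℂ, z.re = x → |z.im - T| ≤ W → ‖f z‖ ≤ Real.exp (b * Real.log T)

lemma Bd.ln {x b : ℝ} {f : ℂ → ℂ} (h : Bd x b f) : Ln x b f := fun W hW => by
  obtain ⟨T₀, h1, h2⟩ := h W hW
  exact ⟨T₀, h1, fun T hT z hz => h2 T hT z hz.ge⟩

lemma Bd.mono {x b x' b' : ℝ} {f : ℂ → ℂ} (h : Bd x b f) (hx : x ≤ x') (hb : b ≤ b') : Bd x' b' f := by
  intro W hW
  obtain ⟨T₀, h1, h2⟩ := h W hW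
  refine ⟨T₀, h1, fun T hT z hz hz2 => (h2 T hT z (hx.trans hz) hz2).trans ?_⟩
  refine Real.exp_le_exp.2 ?_
  have : 0 ≤ Real.log T := Real.log_nonneg (by linarith)
  gcongr

lemma Ln.mono {x b b' : ℝ} {f : ℂ → ℂ} (h : Ln x b f) (hb : b ≤ b') : Ln x b' f := by
  intro W hW
  obtain ⟨T₀, h1, h2⟩ := h W hW
  refine ⟨T₀, h1, fun T hT z hz hz2 => (h2 T hT z hz hz2).trans ?_⟩
  refine Real.exp_le_exp.2 ?_
  have : 0 ≤ Real.log T := Real.log_nonneg (by linarith)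
  gcongr

lemma Bd.congr {x b H : ℝ} {f g : ℂ → ℂ} (h : Bd x b f) (hfg : ∀ z : ℂ, x ≤ z.re → H < z.im → f z = g z) :
    Bd x b g := by
  intro W hW
  obtain ⟨T₀, h1, h2⟩ := h W hW
  have hH := le_abs_self H
  have hH0 := abs_nonneg H
  refine ⟨T₀ + |H| + W + 1, by linarith, fun T hT z hz hz2 => ?_⟩
  have h3 := abs_le.1 hz2
  rw [← hfg z hz (by linarith)]
  exact h2 T (by linarith) z hz hz2

lemma Ln.congr {x b H : ℝ} {f g : ℂ → ℂ} (h : Ln x b f) (hfg : ∀ z : ℂ, z.re = x → H < z.im → f z = g z) :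
    Ln x b g := by
  intro W hW
  obtain ⟨T₀, h1, h2⟩ := h W hW
  have hH := le_abs_self H
  have hH0 := abs_nonneg H
  refine ⟨T₀ + |H| + W + 1, by linarith, fun T hT z hz hz2 => ?_⟩
  have h3 := abs_le.1 hz2
  rw [← hfg z hz (by linarith)]
  exact h2 T (by linarith) z hz hz2

lemma Bd.mul {x b c : ℝ} {f g : ℂ → ℂ} (hf : Bd x b f) (hg : Bd x c g) :
    Bd x (b + c) (fun z => f z * g z) := by
  intro W hW
  obtain ⟨T₁, h1, h2⟩ := hf W hW
  obtain ⟨T₂, h3, h4⟩ := hg W hW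
  refine ⟨max T₁ T₂, h1.trans (le_max_left _ _), fun T hT z hz hz2 => ?_⟩
  rw [norm_mul, add_mul, Real.exp_add]
  exact mul_le_mul (h2 T ((le_max_left _ _).trans hT) z hz hz2)
    (h4 T ((le_max_right _ _).trans hT) z hz hz2) (norm_nonneg _) (Real.exp_pos _).le

lemma Bd.add {x b ε : ℝ} {f g : ℂ → ℂ} (hε : 0 < ε) (hf : Bd x b f) (hg : Bd x b g) :
    Bd x (b + ε) (fun z => f z + g z) := by
  intro W hW
  obtain ⟨T₁, h1, h2⟩ := hf W hW
  obtain ⟨T₂, h3, h4⟩ := hg W hW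
  obtain ⟨T₃, h5, h6⟩ := absorb 2 hε
  refine ⟨max (max T₁ T₂) T₃, h1.trans ((le_max_left _ _).trans (le_max_left _ _)), fun T hT z hz hz2 => ?_⟩
  have e1 := h2 T (((le_max_left _ _).trans (le_max_left _ _)).trans hT) z hz hz2
  have e2 := h4 T (((le_max_right _ _).trans (le_max_left _ _)).trans hT) z hz hz2
  have e3 := h6 T ((le_max_right _ _).trans hT)
  rw [add_mul, Real.exp_add]
  refine (norm_add_le _ _).trans ?_
  have e4 := Real.exp_pos (b * Real.log T)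
  nlinarith

lemma Ln.add {x b ε : ℝ} {f g : ℂ → ℂ} (hε : 0 < ε) (hf : Ln x b f) (hg : Ln x b g) :
    Ln x (b + ε) (fun z => f z + g z) := by
  intro W hW
  obtain ⟨T₁, h1, h2⟩ := hf W hW
  obtain ⟨T₂, h3, h4⟩ := hg W hW
  obtain ⟨T₃, h5, h6⟩ := absorb 2 hε
  refine ⟨max (max T₁ T₂) T₃, h1.trans ((le_max_left _ _).trans (le_max_left _ _)), fun T hT z hz hz2 => ?_⟩
  have e1 := h2 T (((le_max_left _ _).trans (le_max_left _ _)).trans hT) z hz hz2
  have e2 := h4 T (((le_max_right _ _).trans (le_max_left _ _)).trans hT) z hz hz2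
  have e3 := h6 T ((le_max_right _ _).trans hT)
  rw [add_mul, Real.exp_add]
  refine (norm_add_le _ _).trans ?_
  have e4 := Real.exp_pos (b * Real.log T)
  nlinarith

lemma Bd.of_bdd {x M ε : ℝ} {f : ℂ → ℂ} (hε : 0 < ε) (h : ∀ z : ℂ, x ≤ z.re → ‖f z‖ ≤ M) : Bd x ε f := by
  intro W hW
  obtain ⟨T₀, h1, h2⟩ := absorb M hε
  exact ⟨T₀, h1, fun T hT z hz _ => (h z hz).trans (h2 T hT)⟩

lemma Bd.const {x ε : ℝ} (hε : 0 < ε) (c : ℂ) : Bd x ε (fun _ => c) :=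
  Bd.of_bdd hε (M := ‖c‖) fun _ _ => le_rfl

lemma Bd.const_mul {x b ε : ℝ} {f : ℂ → ℂ} (hε : 0 < ε) (hf : Bd x b f) (c : ℂ) :
    Bd x (b + ε) (fun z => c * f z) := by
  have := (Bd.const (x := x) hε c).mul hf
  rwa [add_comm] at this

lemma Bd.neg {x b : ℝ} {f : ℂ → ℂ} (hf : Bd x b f) : Bd x b (fun z => -f z) := by
  intro W hW
  obtain ⟨T₀, h1, h2⟩ := hf W hW
  exact ⟨T₀, h1, fun T hT z hz hz2 => by rw [norm_neg]; exact h2 T hT z hz hz2⟩

lemma affine_aux {lam b ε : ℝ} (hlam : 0 < lam) (hb : 0 ≤ b) (hε : 0 < ε) (c : ℝ) (T₁ W : ℝ) :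
    ∃ T₀ : ℝ, 3 ≤ T₀ ∧ ∀ T : ℝ, T₀ ≤ T → T₁ ≤ lam * T + c ∧ 1 ≤ lam * T + c ∧
      b * Real.log (lam * T + c) ≤ (b + ε) * Real.log T := by
  set K : ℝ := lam + |c| + 1 with hK
  have hK1 : 1 ≤ K := by
    have := abs_nonneg c
    linarith
  obtain ⟨T₂, h1, h2⟩ := absorb (Real.exp (b * Real.log K)) hε
  refine ⟨max T₂ ((|T₁| + |c| + 1) / lam), h1.trans (le_max_left _ _), fun T hT => ?_⟩
  have hT2 : T₂ ≤ T := (le_max_left _ _).trans hT
  have hT3 : 3 ≤ T := h1.trans hT2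
  have h3 : |T₁| + |c| + 1 ≤ lam * T := by
    have := (le_max_right _ _).trans hT
    rw [div_le_iff₀ hlam] at this
    linarith
  have h4 := neg_abs_le c
  have h5 := le_abs_self T₁
  have h6 := abs_nonneg T₁
  have h7 := le_abs_self c
  have hpos : 1 ≤ lam * T + c := by linarith
  refine ⟨by linarith, hpos, ?_⟩
  have h8 : lam * T + c ≤ K * T := by
    rw [hK]
    have := abs_nonneg c
    nlinarith
  have h9 : Real.log (lam * T + c) ≤ Real.log K + Real.log T := by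
    rw [← Real.log_mul (by positivity) (by positivity)]
    exact Real.log_le_log (by linarith) h8
  have h10 : b * Real.log K ≤ ε * Real.log T := Real.exp_le_exp.1 (h2 T hT2)
  nlinarith

lemma Bd.affine {x b ε lam : ℝ} {f : ℂ → ℂ} (hf : Bd x b f) (hlam : 0 < lam) (hb : 0 ≤ b) (hε : 0 < ε)
    (c : ℂ) : Bd ((x - c.re) / lam) (b + ε) (fun z => f (lam * z + c)) := by
  intro W hW
  obtain ⟨T₁, h1, h2⟩ := hf (lam * W) (by positivity)
  obtain ⟨T₀, h3, h4⟩ := affine_aux hlam hb hε c.im T₁ W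
  refine ⟨T₀, h3, fun T hT z hz hz2 => ?_⟩
  obtain ⟨e1, e2, e3⟩ := h4 T hT
  refine (h2 _ e1 _ ?_ ?_).trans (Real.exp_le_exp.2 e3)
  · rw [div_le_iff₀ hlam] at hz
    simp
    linarith
  · have : (lam * z + c).im - (lam * T + c.im) = lam * (z.im - T) := by simp; ring
    rw [this, abs_mul, abs_of_pos hlam]
    gcongr

lemma Ln.affine {x b ε lam : ℝ} {f : ℂ → ℂ} (hf : Ln x b f) (hlam : 0 < lam) (hb : 0 ≤ b) (hε : 0 < ε)
    (c : ℂ) {y : ℝ} (hy : lam * y + c.re = x) : Ln y (b + ε) (fun z => f (lam * z + c)) := by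
  intro W hW
  obtain ⟨T₁, h1, h2⟩ := hf (lam * W) (by positivity)
  obtain ⟨T₀, h3, h4⟩ := affine_aux hlam hb hε c.im T₁ W
  refine ⟨T₀, h3, fun T hT z hz hz2 => ?_⟩
  obtain ⟨e1, e2, e3⟩ := h4 T hT
  refine (h2 _ e1 _ ?_ ?_).trans (Real.exp_le_exp.2 e3)
  · simp [hz, hy]
  · have : (lam * z + c).im - (lam * T + c.im) = lam * (z.im - T) := by simp; ring
    rw [this, abs_mul, abs_of_pos hlam]
    gcongr

/-- bounds between a line and a half plane -/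
lemma pl {F : ℂ → ℂ} {a X B H α β : ℝ} (haX : a < X) (hF : ∀ z : ℂ, a ≤ z.re → H < z.im → DifferentiableAt ℂ F z)
    (hB : Bd a B F) (hα : Ln a α F) (hβ : Bd X β F) (hβα : β ≤ α) {x ε : ℝ} (hx : a ≤ x) (hx2 : x ≤ X) (hε : 0 < ε) :
    Bd x (α + (β - α) * ((x - a) / (X - a)) + ε) F := by
  have hX : 0 < X - a := by linarith
  intro W hW
  obtain ⟨Wl, hWl, hltl⟩ := ltl (a := a) (b := X) (α := α) (β := β) (B := |B|) (ε := ε) haX (abs_nonneg B) hε
  obtain ⟨T₁, h1, h2⟩ := hB (W + Wl) (by linarith)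
  obtain ⟨T₂, h3, h4⟩ := hα (W + Wl) (by linarith)
  obtain ⟨T₃, h5, h6⟩ := hβ (W + Wl) (by linarith)
  have hH := le_abs_self H
  have hH0 := abs_nonneg H
  refine ⟨T₁ + T₂ + T₃ + W + Wl + |H| + 1, by linarith, fun T hT z hz hz2 => ?_⟩
  have hL0 : 0 < Real.log T := Real.log_pos (by linarith)
  have hzW := abs_le.1 hz2
  have hwin : ∀ w : ℂ, |w.im - z.im| ≤ Wl → |w.im - T| ≤ W + Wl := by
    intro w hw
    have := abs_le.1 hw
    rw [abs_le]
    constructor <;> linarith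
  rcases le_total X z.re with h | h
  · refine (h6 T (by linarith) z h (by rw [abs_le]; constructor <;> linarith)).trans (Real.exp_le_exp.2 ?_)
    refine mul_le_mul_of_nonneg_right ?_ hL0.le
    have h7 : (x - a) / (X - a) ≤ 1 := by rw [div_le_one hX]; linarith
    nlinarith
  · have h7 := hltl (Real.log T) hL0.le F z.im
      (fun w hw1 _ hw => hF w hw1 (by
        have := abs_le.1 hw
        linarith))
      (fun w hw1 _ hw => (h2 T (by linarith) w hw1 (hwin w hw)).trans (Real.exp_le_exp.2 (by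
        gcongr; exact le_abs_self B)))
      (fun w hw1 hw => h4 T (by linarith) w hw1 (hwin w hw))
      (fun w hw1 hw => h6 T (by linarith) w hw1.ge (hwin w hw))
      z (hx.trans hz) h rfl
    refine h7.trans (Real.exp_le_exp.2 (mul_le_mul_of_nonneg_right ?_ hL0.le))
    have h8 : (x - a) / (X - a) ≤ (z.re - a) / (X - a) := by gcongr
    have h9 : (β - α) * ((z.re - a) / (X - a)) ≤ (β - α) * ((x - a) / (X - a)) :=
      mul_le_mul_of_nonpos_left h8 (by linarith)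
    linarith

/-! ### zeta -/

lemma zeta_right {ϑ ε : ℝ} (hϑ : 1 < ϑ) (hε : 0 < ε) : Bd ϑ ε riemannZeta := by
  obtain ⟨Az, hAz1, hAz⟩ := DH31.zeta_bounds (a := ϑ) hϑ
  exact Bd.of_bdd hε fun z hz => (hAz z hz).1

lemma zeta_growth (X : ℝ) : ∃ B : ℝ, 0 ≤ B ∧ Bd (-X) B riemannZeta := by
  obtain ⟨B, hB, h⟩ := growth X
  exact ⟨B, hB, fun W _ => h W⟩

lemma zeta_small {θ ϑ ε : ℝ} (hθ : 1 / 2 ≤ θ) (hθ1 : θ ≤ 1) (H : SmallZ θ) (hϑ : θ < ϑ) (hε : 0 < ε) :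
    Bd ϑ ε riemannZeta := by
  rcases hθ1.eq_or_lt with h | h
  · exact zeta_right (by linarith) hε
  · intro W hW
    exact small_strip hθ h H hϑ hε W hW

lemma DD_small {P : Polynomial ℂ} {ϑ b r ε : ℝ} (h : Bd ϑ b riemannZeta) (hr : 0 < r) (hε : 0 < ε) :
    Bd (ϑ + r) (b + ε) (DD P) := by
  rcases eq_or_ne P 0 with rfl | hP
  · intro W hW
    refine ⟨3, le_rfl, fun T hT z hz hz2 => ?_⟩
    have : DD (0 : Polynomial ℂ) z = 0 := by
      unfold DD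
      simp
    rw [this, norm_zero]
    exact (Real.exp_pos _).le
  obtain ⟨l, c, hc, hl⟩ := DD_op hP
  obtain ⟨C, hC, hcau⟩ := op_cauchy l r hr
  intro W hW
  obtain ⟨T₁, h1, h2⟩ := h (W + r) (by linarith)
  obtain ⟨T₂, h3, h4⟩ := absorb (‖c‖ * C) hε
  refine ⟨T₁ + T₂ + W + r + 1, by linarith, fun T hT z hz hz2 => ?_⟩
  have hzW := abs_le.1 hz2
  have hz' : ∀ w ∈ closedBall z r, ϑ ≤ w.re ∧ |w.im - T| ≤ W + r := by
    intro w hw
    obtain ⟨c1, c2, c3, c4⟩ := ball_coord hw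
    exact ⟨by linarith, abs_le.2 ⟨by linarith, by linarith⟩⟩
  have hone : ∀ w ∈ closedBall z r, w ≠ 1 := fun w hw => ne_one_of_im' (by
    have := abs_le.1 (hz' w hw).2
    linarith [this.1])
  rw [hl z (hone z (mem_closedBall_self hr.le)), norm_mul]
  have h5 := hcau z hone _ (fun w hw => h2 T (by linarith) w (hz' w hw).1 (hz' w hw).2)
  calc ‖c‖ * ‖op l z‖ ≤ ‖c‖ * (C * Real.exp (b * Real.log T)) := by gcongr
    _ = (‖c‖ * C) * Real.exp (b * Real.log T) := by ring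
    _ ≤ Real.exp (ε * Real.log T) * Real.exp (b * Real.log T) := by
        gcongr
        exact h4 T (by linarith)
    _ = _ := by rw [← Real.exp_add]; congr 1; ring

lemma DD_growth (P : Polynomial ℂ) (X : ℝ) : ∃ B : ℝ, 0 ≤ B ∧ Bd (-X) B (DD P) := by
  obtain ⟨B, hB, h⟩ := zeta_growth (X + 1)
  refine ⟨B + 1, by linarith, ?_⟩
  have := DD_small (P := P) h one_pos one_pos
  rwa [show -(X + 1) + 1 = -X by ring] at this

lemma DD_bdd (P : Polynomial ℂ) : ∃ C : ℝ, 1 ≤ C ∧ ∀ s : ℂ, 2 ≤ s.re → ‖DD P s‖ ≤ C := by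
  rcases eq_or_ne P 0 with rfl | hP
  · refine ⟨1, le_rfl, fun s _ => ?_⟩
    have : DD (0 : Polynomial ℂ) s = 0 := by
      unfold DD
      simp
    rw [this, norm_zero]
    norm_num
  obtain ⟨l, c, hc, hl⟩ := DD_op hP
  obtain ⟨C, hC, hr⟩ := op_right l
  refine ⟨max 1 (‖c‖ * C), le_max_left _ _, fun s hs => ?_⟩
  rw [hl s (ne_one_of_re' (by linarith)), norm_mul]
  refine le_trans ?_ (le_max_right _ _)
  gcongr
  exact hr s hs

/-- growth on the critical line -/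
def Gr (κ : ℝ) : Prop := ∀ ε : ℝ, 0 < ε → ∃ C : ℝ, ∀ t : ℝ, 1 ≤ t →
  ‖riemannZeta (1 / 2 + t * Complex.I)‖ ≤ C * t ^ (κ + ε)

/-- from bounds with constants to `Ln` -/
lemma ln_of_bound {F : ℂ → ℂ} {κ : ℝ} (hκ : 0 ≤ κ) {x : ℝ} (H : ∀ ε : ℝ, 0 < ε → ∃ C : ℝ, ∀ t : ℝ, 1 ≤ t →
    ‖F (x + t * Complex.I)‖ ≤ C * t ^ (κ + ε)) {ε : ℝ} (hε : 0 < ε) : Ln x (κ + ε) F := by
  intro W hW
  obtain ⟨C, hC⟩ := H (ε / 2) (by positivity)
  obtain ⟨T₁, h1, h2⟩ := absorb (|C| * 2 ^ (κ + ε / 2)) (show 0 < ε / 2 by positivity)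
  refine ⟨T₁ + 2 * W, by linarith, fun T hT z hz hz2 => ?_⟩
  have hT3 : 3 ≤ T := by linarith
  have hTpos : 0 < T := by linarith
  obtain ⟨w1, w2, w3⟩ := window hT3 (by linarith) hz2
  have h3 := hC z.im w3
  have hwe : ((x : ℂ) + (z.im : ℂ) * Complex.I) = z := by
    apply Complex.ext <;> simp [hz]
  rw [hwe] at h3
  have h4 : 0 ≤ z.im ^ (κ + ε / 2) := Real.rpow_nonneg (by linarith) _
  calc ‖F z‖ ≤ C * z.im ^ (κ + ε / 2) := h3
    _ ≤ |C| * z.im ^ (κ + ε / 2) := by gcongr; exact le_abs_self C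
    _ ≤ |C| * (2 * T) ^ (κ + ε / 2) := by gcongr
    _ = (|C| * 2 ^ (κ + ε / 2)) * T ^ (κ + ε / 2) := by
        rw [Real.mul_rpow (by norm_num) hTpos.le]; ring
    _ ≤ Real.exp (ε / 2 * Real.log T) * T ^ (κ + ε / 2) := by
        gcongr
        exact h2 T (by linarith)
    _ = Real.exp ((κ + ε) * Real.log T) := by
        rw [← exp_mul_log hTpos, ← Real.exp_add]
        congr 1
        ring

/-- bounds to the left of the line and on it from the growth on the line -/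
lemma zeta_of_gr {κ : ℝ} (hκ : 0 ≤ κ) (H : Gr κ) {ε : ℝ} (hε : 0 < ε) :
    Bd (1 / 2 - min (ε / 4) (1 / 2)) (κ + ε) riemannZeta := by
  have hd0 : 0 < min (ε / 4) (1 / 2) := lt_min (by positivity) (by norm_num)
  have hd1 : min (ε / 4) (1 / 2) ≤ ε / 4 := min_le_left _ _
  have hd2 : min (ε / 4) (1 / 2) ≤ 1 / 2 := min_le_right _ _
  obtain ⟨B, hB, hgr⟩ := zeta_growth 0
  have hline : Ln (1 / 2) (κ + ε / 4) riemannZeta := ln_of_bound hκ (fun e he => by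
    obtain ⟨C, hC⟩ := H e he
    refine ⟨C, fun t ht => ?_⟩
    have := hC t ht
    rwa [show (((1 / 2 : ℝ) : ℂ)) = 1 / 2 by push_cast; ring]) (by positivity)
  have hright : Bd (1 / 2) (κ + ε / 2) riemannZeta := by
    have h1 := pl (F := riemannZeta) (a := 1 / 2) (X := 2) (H := 0) (by norm_num)
      (fun z _ hz => (zeta_an (ne_one_of_im' hz)).differentiableAt) (hgr.mono (by norm_num) le_rfl)
      hline (zeta_right (by norm_num) (show 0 < ε / 4 by positivity)) (by linarith)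
      (x := 1 / 2) le_rfl (by norm_num) (show 0 < ε / 4 by positivity)
    refine h1.mono le_rfl (le_of_eq ?_)
    rw [sub_self, zero_div, mul_zero]
    ring
  intro W hW
  obtain ⟨T₁, h1, h2⟩ := hright W hW
  obtain ⟨T₂, h3, h4⟩ := fe_window W (show 0 < ε / 4 by positivity)
  refine ⟨max T₁ T₂, h1.trans (le_max_left _ _), fun T hT z hz hz2 => ?_⟩
  have hT3 : 3 ≤ T := (h1.trans (le_max_left _ _)).trans hT
  have hL0 : 0 < Real.log T := Real.log_pos (by linarith)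
  rcases le_total (1 / 2) z.re with h | h
  · refine (h2 T ((le_max_left _ _).trans hT) z h hz2).trans (Real.exp_le_exp.2 ?_)
    gcongr
    linarith
  · set s : ℂ := ⟨1 - z.re, z.im⟩ with hs
    have hsre : s.re = 1 - z.re := rfl
    have h5 := (h4 T ((le_max_right _ _).trans hT) s z (by rw [hsre]; linarith)
      (by rw [hsre]; linarith) hz2 (by rw [hsre]; ring) rfl).1
    have h6 := h2 T ((le_max_left _ _).trans hT) s (by rw [hsre]; linarith) hz2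
    rw [hsre] at h5
    calc ‖riemannZeta z‖ ≤ Real.exp ((1 - z.re - 1 / 2 + ε / 4) * Real.log T) * ‖riemannZeta s‖ := h5
      _ ≤ Real.exp ((ε / 2) * Real.log T) * Real.exp ((κ + ε / 2) * Real.log T) := by
          gcongr
          linarith
      _ = _ := by rw [← Real.exp_add]; congr 1; ring

end Pool.Agent.K7.H52.DL
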