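import Pool.Agent.K7.H52.DL.Lin

/-!
Functions with asymptotic expansions in exponentials, far to the right.
-/

set_option autoImplicit false

open Filter Topology Set Metric

namespace Pool.Agent.K7.H52.DL

open Pool.Agent.K7.H52.SP

/-- asymptotic expansions in exponentials -/
def Ex (f : ℂ → ℂ) : Prop := ∀ V : ℝ, ∃ (ι : Type) (_ : Fintype ι) (a : ι → ℂ) (ν : ι → ℝ) (C X : ℝ),
  (∀ i, 0 ≤ ν i) ∧ 0 ≤ C ∧ 0 ≤ X ∧ ∀ z : ℂ, X ≤ z.re →
    ‖f z - ∑ i, a i * Complex.exp (-(ν i * z))‖ ≤ C * Real.exp (-(V * z.re))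

lemma exp_norm (ν : ℝ) (z : ℂ) : ‖Complex.exp (-(ν * z))‖ = Real.exp (-(ν * z.re)) := by
  rw [Complex.norm_exp]
  congr 1
  simp

lemma sum_le {ι : Type} [Fintype ι] {a : ι → ℂ} {ν : ι → ℝ} (hν : ∀ i, 0 ≤ ν i) {z : ℂ} (hz : 0 ≤ z.re) :
    ‖∑ i, a i * Complex.exp (-(ν i * z))‖ ≤ ∑ i, ‖a i‖ := by
  refine (norm_sum_le _ _).trans (Finset.sum_le_sum fun i _ => ?_)
  rw [norm_mul, exp_norm]
  have h1 : Real.exp (-(ν i * z.re)) ≤ 1 := by
    rw [Real.exp_le_one_iff]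
    have := mul_nonneg (hν i) hz
    linarith
  have h2 := norm_nonneg (a i)
  nlinarith

lemma Ex.const (c : ℂ) : Ex fun _ => c := by
  intro V
  refine ⟨Unit, inferInstance, fun _ => c, fun _ => 0, 0, 0, fun _ => le_rfl, le_rfl, le_rfl, fun z _ => ?_⟩
  simp

lemma Ex.add {f g : ℂ → ℂ} (hf : Ex f) (hg : Ex g) : Ex fun z => f z + g z := by
  intro V
  obtain ⟨ι, _, a, ν, C, X, h1, h2, h3, h4⟩ := hf V
  obtain ⟨κ, _, b, μ, D, Y, k1, k2, k3, k4⟩ := hg V
  refine ⟨ι ⊕ κ, inferInstance, Sum.elim a b, Sum.elim ν μ, C + D, max X Y, ?_, by positivity,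
    h3.trans (le_max_left _ _), fun z hz => ?_⟩
  · rintro (i | i)
    · exact h1 i
    · exact k1 i
  · have e1 := h4 z ((le_max_left _ _).trans hz)
    have e2 := k4 z ((le_max_right _ _).trans hz)
    rw [Fintype.sum_sum_type]
    simp only [Sum.elim_inl, Sum.elim_inr]
    rw [add_sub_add_comm, add_mul]
    exact (norm_add_le _ _).trans (add_le_add e1 e2)

lemma Ex.mul {f g : ℂ → ℂ} (hf : Ex f) (hg : Ex g) : Ex fun z => f z * g z := by
  intro V
  obtain ⟨ι, _, a, ν, C, X, h1, h2, h3, h4⟩ := hf (max V 0)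
  obtain ⟨κ, _, b, μ, D, Y, k1, k2, k3, k4⟩ := hg (max V 0)
  refine ⟨ι × κ, inferInstance, fun p => a p.1 * b p.2, fun p => ν p.1 + μ p.2,
    C * (∑ i, ‖b i‖ + D) + (∑ i, ‖a i‖) * D, max X Y, ?_, ?_, h3.trans (le_max_left _ _), fun z hz => ?_⟩
  · intro p
    exact add_nonneg (h1 _) (k1 _)
  · have : 0 ≤ ∑ i, ‖b i‖ := Finset.sum_nonneg fun i _ => norm_nonneg _
    have : 0 ≤ ∑ i, ‖a i‖ := Finset.sum_nonneg fun i _ => norm_nonneg _
    positivity
  · have hz0 : 0 ≤ z.re := (h3.trans (le_max_left _ _)).trans hz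
    have e1 := h4 z ((le_max_left _ _).trans hz)
    have e2 := k4 z ((le_max_right _ _).trans hz)
    have hV : Real.exp (-(max V 0 * z.re)) ≤ Real.exp (-(V * z.re)) := by
      refine Real.exp_le_exp.2 ?_
      have := mul_le_mul_of_nonneg_right (le_max_left V 0) hz0
      linarith
    have hV1 : Real.exp (-(max V 0 * z.re)) ≤ 1 := by
      rw [Real.exp_le_one_iff]
      have := mul_nonneg (le_max_right V 0) hz0
      linarith
    set A := ∑ i, a i * Complex.exp (-(ν i * z)) with hA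
    set Bz := ∑ i, b i * Complex.exp (-(μ i * z)) with hBz
    have hAB : ∑ p : ι × κ, a p.1 * b p.2 * Complex.exp (-(((ν p.1 + μ p.2 : ℝ) : ℂ) * z)) = A * Bz := by
      rw [hA, hBz, Finset.sum_mul_sum, Fintype.sum_prod_type]
      refine Finset.sum_congr rfl fun i _ => Finset.sum_congr rfl fun j _ => ?_
      rw [show -(((ν i + μ j : ℝ) : ℂ) * z) = -(ν i * z) + -(μ j * z) by push_cast; ring, Complex.exp_add]
      ring
    rw [hAB]
    have hA' : ‖A‖ ≤ ∑ i, ‖a i‖ := sum_le h1 hz0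
    have hg' : ‖g z‖ ≤ ∑ i, ‖b i‖ + D := by
      have : ‖g z‖ ≤ ‖Bz‖ + ‖g z - Bz‖ := by
        have := norm_add_le Bz (g z - Bz)
        rwa [add_sub_cancel] at this
      have h5 : ‖Bz‖ ≤ ∑ i, ‖b i‖ := sum_le k1 hz0
      have h6 : D * Real.exp (-(max V 0 * z.re)) ≤ D * 1 := by gcongr
      linarith
    have e3 : f z * g z - A * Bz = (f z - A) * g z + A * (g z - Bz) := by ring
    rw [e3]
    have hs0 : 0 ≤ ∑ i, ‖a i‖ := Finset.sum_nonneg fun i _ => norm_nonneg _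
    have hs1 : 0 ≤ ∑ i, ‖b i‖ := Finset.sum_nonneg fun i _ => norm_nonneg _
    calc ‖(f z - A) * g z + A * (g z - Bz)‖ ≤ ‖f z - A‖ * ‖g z‖ + ‖A‖ * ‖g z - Bz‖ := by
          refine (norm_add_le _ _).trans ?_
          rw [norm_mul, norm_mul]
      _ ≤ (C * Real.exp (-(max V 0 * z.re))) * (∑ i, ‖b i‖ + D) +
          (∑ i, ‖a i‖) * (D * Real.exp (-(max V 0 * z.re))) := by gcongr
      _ = (C * (∑ i, ‖b i‖ + D) + (∑ i, ‖a i‖) * D) * Real.exp (-(max V 0 * z.re)) := by ring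
      _ ≤ _ := by gcongr

/-- the leading term dominates -/
lemma lead_dom {S : Finset ℝ} {b : ℝ → ℂ} {μ₀ : ℝ} (h0 : μ₀ ∈ S) (hb : b μ₀ ≠ 0)
    (hmin : ∀ μ ∈ S, b μ ≠ 0 → μ₀ ≤ μ) : ∃ X : ℝ, ∀ z : ℂ, X ≤ z.re →
      ‖b μ₀‖ / 2 * Real.exp (-(μ₀ * z.re)) ≤ ‖∑ μ ∈ S, b μ * Complex.exp (-(μ * z))‖ := by
  classical
  have hb0 : 0 < ‖b μ₀‖ := norm_pos_iff.2 hb
  have ht : Tendsto (fun x : ℝ => ∑ μ ∈ S.erase μ₀, ‖b μ‖ * Real.exp (-((μ - μ₀) * x))) atTop
      (𝓝 (∑ μ ∈ S.erase μ₀, 0)) := by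
    refine tendsto_finsetSum _ fun μ hμ => ?_
    rw [Finset.mem_erase] at hμ
    by_cases hbm : b μ = 0
    · simp only [hbm, norm_zero, zero_mul]
      exact tendsto_const_nhds
    · have h1 : 0 < μ - μ₀ := by
        have := lt_of_le_of_ne (hmin μ hμ.2 hbm) (Ne.symm hμ.1)
        linarith
      rw [show (0 : ℝ) = ‖b μ‖ * 0 by ring]
      refine Tendsto.const_mul _ ?_
      refine Real.tendsto_exp_neg_atTop_nhds_zero.comp ?_
      exact Filter.Tendsto.const_mul_atTop h1 tendsto_id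
  rw [Finset.sum_const_zero] at ht
  obtain ⟨X, hX⟩ := Filter.eventually_atTop.1 (ht.eventually_le_const (show 0 < ‖b μ₀‖ / 2 by positivity))
  refine ⟨X, fun z hz => ?_⟩
  have h1 := hX z.re hz
  rw [← Finset.add_sum_erase S _ h0]
  have h2 : ‖∑ μ ∈ S.erase μ₀, b μ * Complex.exp (-(μ * z))‖ ≤
      Real.exp (-(μ₀ * z.re)) * ∑ μ ∈ S.erase μ₀, ‖b μ‖ * Real.exp (-((μ - μ₀) * z.re)) := by
    rw [Finset.mul_sum]
    refine (norm_sum_le _ _).trans (Finset.sum_le_sum fun μ _ => ?_)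
    rw [norm_mul, exp_norm]
    apply le_of_eq
    rw [mul_left_comm, ← Real.exp_add]
    congr 2
    ring
  have h3 : ‖b μ₀ * Complex.exp (-(μ₀ * z))‖ = ‖b μ₀‖ * Real.exp (-(μ₀ * z.re)) := by
    rw [norm_mul, exp_norm]
  have h4 := norm_sub_le_norm_add (b μ₀ * Complex.exp (-(μ₀ * z)))
    (∑ μ ∈ S.erase μ₀, b μ * Complex.exp (-(μ * z)))
  rw [h3] at h4
  have h5 : Real.exp (-(μ₀ * z.re)) * ∑ μ ∈ S.erase μ₀, ‖b μ‖ * Real.exp (-((μ - μ₀) * z.re)) ≤
      Real.exp (-(μ₀ * z.re)) * (‖b μ₀‖ / 2) := by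
    have := Real.exp_pos (-(μ₀ * z.re))
    gcongr
  nlinarith

/-- lower bound or zero -/
theorem Ex.lower {f : ℂ → ℂ} (hf : Ex f) {X₀ M : ℝ} (han : ∀ z : ℂ, X₀ ≤ z.re → AnalyticAt ℂ f z)
    (hbd : ∀ z : ℂ, X₀ ≤ z.re → ‖f z‖ ≤ M) :
    (∀ z : ℂ, X₀ ≤ z.re → f z = 0) ∨
      ∃ X c ν : ℝ, 0 < c ∧ ∀ z : ℂ, X ≤ z.re → c * Real.exp (-(ν * z.re)) ≤ ‖f z‖ := by
  classical
  -- the expansions after grouping
  have hgr : ∀ V : ℝ, ∃ (S : Finset ℝ) (b : ℝ → ℂ) (C X : ℝ), 0 ≤ C ∧ 0 ≤ X ∧ ∀ z : ℂ, X ≤ z.re →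
      ‖f z - ∑ μ ∈ S, b μ * Complex.exp (-(μ * z))‖ ≤ C * Real.exp (-(V * z.re)) := by
    intro V
    obtain ⟨ι, _, a, ν, C, X, h1, h2, h3, h4⟩ := hf V
    refine ⟨Finset.univ.image ν, fun μ => ∑ i with ν i = μ, a i, C, X, h2, h3, fun z hz => ?_⟩
    have e : ∑ μ ∈ Finset.univ.image ν, (∑ i with ν i = μ, a i) * Complex.exp (-(μ * z)) =
        ∑ i, a i * Complex.exp (-(ν i * z)) := by
      rw [← Finset.sum_fiberwise_of_maps_to (s := Finset.univ) (t := Finset.univ.image ν) (g := ν)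
        (fun i _ => Finset.mem_image_of_mem _ (Finset.mem_univ i))]
      refine Finset.sum_congr rfl fun μ _ => ?_
      rw [Finset.sum_mul]
      refine Finset.sum_congr rfl fun i hi => ?_
      rw [Finset.mem_filter] at hi
      rw [hi.2]
    rw [e]
    exact h4 z hz
  by_cases hA : ∃ (V : ℝ) (S : Finset ℝ) (b : ℝ → ℂ) (C X : ℝ), (0 ≤ C ∧ 0 ≤ X ∧ ∀ z : ℂ, X ≤ z.re →
      ‖f z - ∑ μ ∈ S, b μ * Complex.exp (-(μ * z))‖ ≤ C * Real.exp (-(V * z.re))) ∧
      ∃ μ ∈ S, μ < V ∧ b μ ≠ 0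
  · right
    obtain ⟨V, S, b, C, X, ⟨hC, hX, hz⟩, μ, hμS, hμV, hbμ⟩ := hA
    -- the least frequency
    obtain ⟨μ₀, hμ₀, hmin⟩ := Finset.exists_min_image (S.filter fun μ => b μ ≠ 0) id
      ⟨μ, Finset.mem_filter.2 ⟨hμS, hbμ⟩⟩
    rw [Finset.mem_filter] at hμ₀
    have hμ₀V : μ₀ < V := lt_of_le_of_lt (hmin μ (Finset.mem_filter.2 ⟨hμS, hbμ⟩)) hμV
    obtain ⟨X₁, hX₁⟩ := lead_dom hμ₀.1 hμ₀.2 (fun μ h1 h2 => hmin μ (Finset.mem_filter.2 ⟨h1, h2⟩))
    have hb0 : 0 < ‖b μ₀‖ := norm_pos_iff.2 hμ₀.2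
    have ht : Tendsto (fun x : ℝ => C * Real.exp (-((V - μ₀) * x))) atTop (𝓝 (C * 0)) := by
      refine Tendsto.const_mul _ (Real.tendsto_exp_neg_atTop_nhds_zero.comp ?_)
      exact Filter.Tendsto.const_mul_atTop (by linarith) tendsto_id
    rw [mul_zero] at ht
    obtain ⟨X₂, hX₂⟩ := Filter.eventually_atTop.1 (ht.eventually_le_const
      (show 0 < ‖b μ₀‖ / 4 by positivity))
    refine ⟨max (max X X₁) X₂, ‖b μ₀‖ / 4, μ₀, by positivity, fun z hz' => ?_⟩
    have e1 := hz z (((le_max_left _ _).trans (le_max_left _ _)).trans hz')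
    have e2 := hX₁ z (((le_max_right _ _).trans (le_max_left _ _)).trans hz')
    have e3 := hX₂ z.re ((le_max_right _ _).trans hz')
    have e4 : C * Real.exp (-(V * z.re)) = Real.exp (-(μ₀ * z.re)) * (C * Real.exp (-((V - μ₀) * z.re))) := by
      rw [mul_left_comm, ← Real.exp_add]
      congr 2
      ring
    have e5 := norm_sub_norm_le (∑ μ ∈ S, b μ * Complex.exp (-(μ * z))) (∑ μ ∈ S, b μ * Complex.exp (-(μ * z)) - f z)
    rw [sub_sub_cancel, norm_sub_rev (∑ μ ∈ S, b μ * Complex.exp (-(μ * z))) (f z)] at e5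
    have e6 : Real.exp (-(μ₀ * z.re)) * (C * Real.exp (-((V - μ₀) * z.re))) ≤
        Real.exp (-(μ₀ * z.re)) * (‖b μ₀‖ / 4) := by
      have := Real.exp_pos (-(μ₀ * z.re))
      gcongr
    rw [e4] at e1
    nlinarith
  · left
    push Not at hA
    have hdec : ∀ V : ℝ, ∃ C X : ℝ, 0 ≤ C ∧ ∀ z : ℂ, X ≤ z.re → ‖f z‖ ≤ C * Real.exp (-(V * z.re)) := by
      intro V
      obtain ⟨S, b, C, X, h1, h2, h3⟩ := hgr V
      have h4 := hA V S b C X ⟨h1, h2, h3⟩
      refine ⟨∑ μ ∈ S, ‖b μ‖ + C, X, by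
        have := Finset.sum_nonneg fun μ (_ : μ ∈ S) => norm_nonneg (b μ); linarith, fun z hz => ?_⟩
      have hz0 : 0 ≤ z.re := h2.trans hz
      have h5 : ‖∑ μ ∈ S, b μ * Complex.exp (-(μ * z))‖ ≤ (∑ μ ∈ S, ‖b μ‖) * Real.exp (-(V * z.re)) := by
        rw [Finset.sum_mul]
        refine (norm_sum_le _ _).trans (Finset.sum_le_sum fun μ hμ => ?_)
        rw [norm_mul, exp_norm]
        by_cases hμV : μ < V
        · rw [h4 μ hμ hμV]
          simp
        · push Not at hμV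
          gcongr
      have h6 := h3 z hz
      have h7 := norm_add_le (∑ μ ∈ S, b μ * Complex.exp (-(μ * z)))
        (f z - ∑ μ ∈ S, b μ * Complex.exp (-(μ * z)))
      rw [add_sub_cancel] at h7
      rw [add_mul]
      linarith
    set g : ℂ → ℂ := fun z => f (z + X₀) with hg
    have hgan : ∀ z : ℂ, 0 ≤ z.re → AnalyticAt ℂ g z := by
      intro z hz
      exact AnalyticAt.comp (g := f) (f := fun z : ℂ => z + X₀) (han _ (by simp; linarith)) (by fun_prop)
    have hg0 : EqOn g 0 {z : ℂ | 0 ≤ z.re} := by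
      refine PhragmenLindelof.eq_zero_on_right_half_plane_of_superexponential_decay ?_ ?_ ?_ ?_
      · refine DifferentiableOn.diffContOnCl ?_
        rw [Complex.closure_setOfPred_lt_re]
        intro z hz
        exact (hgan z hz).differentiableAt.differentiableWithinAt
      · refine ⟨0, by norm_num, 0, ?_⟩
        refine Asymptotics.IsBigO.of_bound M ?_
        have : ∀ᶠ z : ℂ in Bornology.cobounded ℂ ⊓ 𝓟 {z : ℂ | 0 < z.re}, 0 < z.re :=
          Filter.Eventually.filter_mono inf_le_right (Filter.mem_principal_self _)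
        filter_upwards [this] with z hz
        simp only [zero_mul, Real.exp_zero, norm_one, mul_one]
        exact hbd _ (by simp; linarith)
      · intro n
        obtain ⟨C, X, hC, h1⟩ := hdec (n + 1)
        have ht : Tendsto (fun x : ℝ => C * Real.exp (-((n + 1) * X₀)) * Real.exp (-x)) atTop
            (𝓝 (C * Real.exp (-((n + 1) * X₀)) * 0)) :=
          Real.tendsto_exp_neg_atTop_nhds_zero.const_mul _
        rw [mul_zero] at ht
        refine squeeze_zero_norm' ?_ ht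
        filter_upwards [Filter.eventually_ge_atTop (X - X₀)] with x hx
        have h2 := h1 ((x : ℂ) + X₀) (by simp; linarith)
        rw [Real.norm_eq_abs, abs_mul, abs_of_pos (by positivity : 0 < Real.exp x ^ n), abs_of_nonneg (norm_nonneg _)]
        simp only [hg]
        have e1 : ((x : ℂ) + X₀).re = x + X₀ := by simp
        rw [e1] at h2
        calc Real.exp x ^ n * ‖f ((x : ℂ) + X₀)‖ ≤ Real.exp x ^ n * (C * Real.exp (-((n + 1) * (x + X₀)))) := by
              gcongr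
          _ = C * Real.exp (-((n + 1) * X₀)) * Real.exp (-x) := by
              rw [← Real.exp_nat_mul, mul_left_comm, ← Real.exp_add, mul_assoc, ← Real.exp_add]
              congr 2
              ring
      · refine ⟨M, fun x => hbd _ (by simp)⟩
    intro z hz
    have h1 := hg0 (show z - X₀ ∈ {z : ℂ | 0 ≤ z.re} by simp; linarith)
    simp only [hg, sub_add_cancel, Pi.zero_apply] at h1
    exact h1

/-- the expansions of the dilates -/
lemma uu_ex (P : Polynomial ℂ) {lam : ℝ} (h : ℝ) (hlam : 0 < lam) : Ex (uu P lam h) := by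
  rcases eq_or_ne P 0 with rfl | hP
  · have : uu (0 : Polynomial ℂ) lam h = fun _ => 0 := by
      funext z
      unfold uu DD
      simp
    rw [this]
    exact Ex.const 0
  obtain ⟨l, c, hc, hl⟩ := DD_op hP
  intro V
  obtain ⟨N, hN⟩ := exists_nat_gt (Real.exp (|V| / lam))
  have hN1 : 1 ≤ N := by
    have h1 : (0 : ℝ) < N := (Real.exp_pos _).trans hN
    have : 0 < N := by exact_mod_cast h1
    omega
  have hN0 : (0 : ℝ) < N := by exact_mod_cast hN1
  have hlogN : V ≤ lam * Real.log N := by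
    have h1 : |V| / lam ≤ Real.log N := by
      rw [Real.le_log_iff_exp_le hN0]
      exact hN.le
    rw [div_le_iff₀ hlam] at h1
    have := le_abs_self V
    linarith
  have hsum2 : Summable fun n => ‖LSeries.term (cf l) 2 n‖ := (cf_summable l (s := 2) (by norm_num)).norm
  set K := ∑' n, ‖LSeries.term (cf l) 2 n‖ with hK
  have hK0 : 0 ≤ K := tsum_nonneg fun n => norm_nonneg _
  refine ⟨Fin N, inferInstance, fun i => if (i : ℕ) = 0 then 0 else
      c * (cf l i * ((i : ℕ) : ℂ) ^ (-(1 / 2 + (h : ℂ) * Complex.I))),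
    fun i => lam * Real.log i, ‖c‖ * (K * (N : ℝ) ^ (3 / 2 : ℝ)), 3 / lam, ?_, by positivity, by positivity, ?_⟩
  · intro i
    have : 0 ≤ Real.log (i : ℕ) := Real.log_natCast_nonneg _
    positivity
  · intro z hz
    rw [div_le_iff₀ hlam] at hz
    have hz0 : 0 ≤ z.re := by nlinarith
    set s : ℂ := lam * z + (1 / 2 + h * Complex.I) with hs
    have hsre : s.re = lam * z.re + 1 / 2 := by rw [hs]; simp
    have hs2 : 2 ≤ s.re := by rw [hsre]; linarith
    have hsum := cf_summable l (s := s) (by linarith)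
    have e1 : uu P lam h z = c * LSeries (cf l) s := by
      unfold uu
      rw [← hs, hl s (ne_one_of_re' (by linarith)), op_eq l s (by linarith)]
    have e2 : ∑ i : Fin N, (if (i : ℕ) = 0 then (0 : ℂ) else
        c * (cf l i * ((i : ℕ) : ℂ) ^ (-(1 / 2 + (h : ℂ) * Complex.I)))) *
          Complex.exp (-((lam * Real.log (i : ℕ) : ℝ) * z)) = c * ∑ n ∈ Finset.range N, LSeries.term (cf l) s n := by
      rw [Finset.sum_range, Finset.mul_sum]
      refine Finset.sum_congr rfl fun i _ => ?_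
      by_cases hi : (i : ℕ) = 0
      · rw [if_pos hi, hi]
        simp
      · rw [if_neg hi, LSeries.term_of_ne_zero hi]
        have hi0 : ((i : ℕ) : ℂ) ≠ 0 := by exact_mod_cast hi
        have e3 : Complex.exp (-((lam * Real.log (i : ℕ) : ℝ) * z)) = ((i : ℕ) : ℂ) ^ (-(lam * z)) := by
          rw [Complex.cpow_def_of_ne_zero hi0, ← Complex.natCast_log]
          congr 1
          push_cast
          ring
        rw [e3, mul_assoc, mul_assoc, ← Complex.cpow_add _ _ hi0,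
          div_eq_mul_inv (cf l i) (((i : ℕ) : ℂ) ^ s), ← Complex.cpow_neg]
        congr 3
        rw [hs]
        ring
    rw [e1, e2]
    unfold LSeries
    rw [← mul_sub, ← Summable.sum_add_tsum_nat_add N hsum, add_sub_cancel_left, norm_mul, mul_assoc]
    have hrest : ‖∑' n, LSeries.term (cf l) s (n + N)‖ ≤ K * (N : ℝ) ^ (2 - s.re) := by
      have hsum3 : Summable fun n => ‖LSeries.term (cf l) 2 (n + N)‖ * (N : ℝ) ^ (2 - s.re) :=
        ((summable_nat_add_iff N).2 hsum2).mul_right _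
      refine (tsum_of_norm_bounded hsum3.hasSum fun n => ?_).trans ?_
      · have hn0 : (0 : ℝ) < ((n + N : ℕ) : ℝ) := by exact_mod_cast (by omega : 0 < n + N)
        rw [LSeries.norm_term_eq, LSeries.norm_term_eq, if_neg (by omega), if_neg (by omega)]
        have e : (((n + N : ℕ) : ℝ)) ^ s.re = ((n + N : ℕ) : ℝ) ^ (2 : ℂ).re * ((n + N : ℕ) : ℝ) ^ (s.re - 2) := by
          rw [← Real.rpow_add hn0]
          congr 1
          simp
        rw [e, ← div_div, div_eq_mul_inv _ (((n + N : ℕ) : ℝ) ^ (s.re - 2)), ← Real.rpow_neg hn0.le]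
        have e2 : -(s.re - 2) = 2 - s.re := by ring
        rw [e2]
        have h5 : ((n + N : ℕ) : ℝ) ^ (2 - s.re) ≤ (N : ℝ) ^ (2 - s.re) := by
          apply Real.rpow_le_rpow_of_nonpos hN0
          · push_cast
            have : (0 : ℝ) ≤ n := Nat.cast_nonneg n
            linarith
          · linarith
        gcongr
      · rw [tsum_mul_right]
        gcongr
        rw [hK, ← Summable.sum_add_tsum_nat_add N hsum2]
        have := Finset.sum_nonneg fun n (_ : n ∈ Finset.range N) => norm_nonneg (LSeries.term (cf l) 2 n)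
        linarith
    have hfin : (N : ℝ) ^ (2 - s.re) ≤ (N : ℝ) ^ (3 / 2 : ℝ) * Real.exp (-(V * z.re)) := by
      rw [hsre, show 2 - (lam * z.re + 1 / 2) = 3 / 2 + -(lam * z.re) by ring, Real.rpow_add hN0]
      gcongr
      rw [← exp_mul_log hN0]
      refine Real.exp_le_exp.2 ?_
      nlinarith
    calc ‖c‖ * ‖∑' n, LSeries.term (cf l) s (n + N)‖ ≤ ‖c‖ * (K * ((N : ℝ) ^ (3 / 2 : ℝ) * Real.exp (-(V * z.re)))) := by
          gcongr
          exact hrest.trans (by gcongr)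
      _ = _ := by ring

end Pool.Agent.K7.H52.DL
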