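import Pool.Agent.K7.H52.DL.AlgMain

/-!
Polynomials in dilates: the statements on the line.
-/

set_option autoImplicit false

open Filter Topology Set Metric

namespace Pool.Agent.K7.H52.DL

open Pool.Agent.K7.H52.SP

lemma gr_of_LH (H : LH) : Gr 0 := by
  intro ε hε
  obtain ⟨C, hC⟩ := H ε hε
  refine ⟨|C| * 2 ^ ε, fun t ht => ?_⟩
  have h1 := hC t
  rw [abs_of_pos (by linarith)] at h1
  have h2 : (1 + t) ^ ε ≤ (2 * t) ^ ε := Real.rpow_le_rpow (by linarith) (by linarith) hε.le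
  have h3 : 0 ≤ (1 + t) ^ ε := Real.rpow_nonneg (by linarith) _
  calc ‖riemannZeta (1 / 2 + t * Complex.I)‖ ≤ C * (1 + t) ^ ε := h1
    _ ≤ |C| * (1 + t) ^ ε := by gcongr; exact le_abs_self C
    _ ≤ |C| * (2 * t) ^ ε := by gcongr
    _ = |C| * 2 ^ ε * t ^ (0 + ε) := by
        rw [Real.mul_rpow (by norm_num) (by linarith), zero_add]; ring

/-- the functions of the real variable -/
def Sml (f : ℝ → ℂ) : Prop := ∀ ε : ℝ, 0 < ε → ∃ C : ℝ, ∀ t : ℝ, 1 ≤ t → ‖f t‖ ≤ C * t ^ ε

section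

variable {R : Type} [CommRing R] (φ : ℂ → R →+* ℂ)

/-- the polynomial is small on the line if the Lindelöf hypothesis holds -/
lemma PQ_small (hφ : ∀ (r : R) (ε : ℝ), 0 < ε → Bd 0 ε fun z => φ z r) {m : ℕ} {P : Fin m → Polynomial ℂ}
    {lam h : Fin m → ℝ} (hlam : ∀ j, 0 < lam j) (Q : MvPolynomial (Fin m) R) (H : LH) :
    ∀ ε : ℝ, 0 < ε → Bd 0 ε (PQ φ P lam h Q) := by
  refine PQ_ind φ P lam h (fun f => ∀ ε : ℝ, 0 < ε → Bd 0 ε f) hφ ?_ ?_ ?_ Q
  · intro f g hf hg ε hε
    have := (hf (ε / 2) (by positivity)).add (show 0 < ε / 2 by positivity) (hg (ε / 2) (by positivity))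
    rwa [add_halves] at this
  · intro f g hf hg ε hε
    have := (hf (ε / 2) (by positivity)).mul (hg (ε / 2) (by positivity))
    rwa [add_halves] at this
  · intro j ε hε
    have := uu_of_gr (P := P j) (h := h j) (hlam j) le_rfl hε (gr_of_LH H)
    rwa [zero_add] at this

lemma PQ_cont (hφ : ∀ r : R, Continuous fun t : ℝ => φ (t * Complex.I) r) {m : ℕ} (P : Fin m → Polynomial ℂ)
    (lam h : Fin m → ℝ) (Q : MvPolynomial (Fin m) R) :
    Continuous fun t : ℝ => PQ φ P lam h Q (t * Complex.I) := by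
  refine PQ_ind φ P lam h (fun f => Continuous fun t : ℝ => f (t * Complex.I)) hφ ?_ ?_ ?_ Q
  · intro f g hf hg
    exact hf.add hg
  · intro f g hf hg
    exact hf.mul hg
  · intro j
    exact uu_cont _ _ _

/-- an identity above some height holds on the line -/
lemma on_line (hφ : ∀ (r : R) (z : ℂ), AnalyticAt ℂ (fun z => φ z r) z) {m : ℕ} {P : Fin m → Polynomial ℂ}
    {lam h : Fin m → ℝ} (hlam : ∀ j, 0 < lam j) {Q : MvPolynomial (Fin m) R} {r : R} {H : ℝ}
    (hcon : ∀ z : ℂ, H < z.im → PQ φ P lam h Q z = φ z r) (t : ℝ) :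
    PQ φ P lam h Q (t * Complex.I) = φ (t * Complex.I) r := by
  set ρ : ℝ := 1 / (2 * (∑ j, lam j + 1)) with hρ
  have hs0 : 0 ≤ ∑ j, lam j := Finset.sum_nonneg fun j _ => (hlam j).le
  have hρ0 : 0 < ρ := by positivity
  set U : Set ℂ := {z : ℂ | z.re < ρ} with hU
  have hUc : IsPreconnected U := (convex_halfSpace_re_lt ρ).isPreconnected
  have han : AnalyticOnNhd ℂ (fun z => PQ φ P lam h Q z - φ z r) U := by
    intro z hz
    have hz' : z.re < ρ := hz
    refine AnalyticAt.sub ?_ (hφ r z)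
    refine PQ_ind φ P lam h (fun f => AnalyticAt ℂ f z) (fun c => hφ c z)
      (fun f g hf hg => hf.add hg) (fun f g hf hg => hf.mul hg) ?_ Q
    intro j
    refine uu_an _ (arg_ne_re ?_)
    have h1 : lam j ≤ ∑ j, lam j := Finset.single_le_sum (f := lam) (fun i _ => (hlam i).le) (Finset.mem_univ j)
    have h2 := hlam j
    have h3 : lam j * ρ < 1 / 2 := by
      rw [hρ, mul_one_div, div_lt_div_iff₀ (by positivity) (by norm_num)]
      linarith
    nlinarith
  set z₀ : ℂ := ⟨0, H + 1⟩ with hz₀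
  have h1 : (fun z => PQ φ P lam h Q z - φ z r) =ᶠ[𝓝 z₀] 0 := by
    have hopen : IsOpen {z : ℂ | H < z.im} := isOpen_lt continuous_const Complex.continuous_im
    filter_upwards [hopen.mem_nhds (show H < z₀.im by simp [hz₀])] with z hz
    simp only [Pi.zero_apply]
    rw [hcon z hz, sub_self]
  have h2 := han.eqOn_zero_of_preconnected_of_eventuallyEq_zero hUc
    (show z₀ ∈ U by simp [hU, hz₀, hρ0]) h1
  have := h2 (show (t * Complex.I : ℂ) ∈ U by simp [hU, hρ0])
  simp only [Pi.zero_apply] at this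
  exact sub_eq_zero.1 this

theorem alg_fin (hφ : ∀ (x₁ : ℝ) (r : R), Co x₁ fun z => φ z r)
    (hφa : ∀ (r : R) (z : ℂ), AnalyticAt ℂ (fun z => φ z r) z) {m : ℕ} {P : Fin m → Polynomial ℂ}
    {lam h : Fin m → ℝ} (hP : ∀ j, P j ≠ 0) (hlam : ∀ j, 0 < lam j) (hinj : Function.Injective lam)
    {Q : MvPolynomial (Fin m) R}
    (hnc : ∀ r : R, ∃ t : ℝ, PQ φ P lam h Q (t * Complex.I) ≠ φ (t * Complex.I) r) :
    LH ↔ Sml fun t => PQ φ P lam h Q (t * Complex.I) := by
  have hφc : ∀ r : R, Continuous fun t : ℝ => φ (t * Complex.I) r := by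
    intro r
    have h1 : Continuous fun z => φ z r := continuous_iff_continuousAt.2 fun z => (hφa r z).continuousAt
    exact h1.comp (by fun_prop : Continuous fun t : ℝ => (t : ℂ) * Complex.I)
  constructor
  · intro H ε hε
    refine bound_of_ln hε.le (PQ_cont φ hφc _ _ _ _) (PQ_small φ (fun r ε hε => ?_) hlam Q H ε hε).ln
    exact (hφ (-1) r).sm 0 ε (by norm_num) hε
  · intro H
    rw [LH_iff]
    have hline : ∀ ε : ℝ, 0 < ε → Ln 0 ε (PQ φ P lam h Q) := fun ε hε => by
      have := ln_of_bound (F := PQ φ P lam h Q) (κ := 0) le_rfl (x := 0) (fun e he => by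
        obtain ⟨C, hC⟩ := H e he
        refine ⟨C, fun t ht => ?_⟩
        have := hC t ht
        rwa [Complex.ofReal_zero, zero_add, zero_add]) hε
      rwa [zero_add] at this
    have hnc' : ∀ (r : R) (H : ℝ), ∃ z : ℂ, H < z.im ∧ PQ φ P lam h Q z ≠ φ z r := by
      intro r H
      by_contra hcon
      push Not at hcon
      obtain ⟨t, ht⟩ := hnc r
      exact ht (on_line φ hφa hlam hcon t)
    -- sorting
    set σ := Tuple.sort lam with hσ
    have hmono : StrictMono (lam ∘ σ) :=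
      (Tuple.monotone_sort lam).strictMono_of_injective (hinj.comp σ.injective)
    have e : PQ φ (P ∘ σ) (lam ∘ σ) (h ∘ σ) (MvPolynomial.rename σ.symm Q) = PQ φ P lam h Q := by
      funext z
      unfold PQ
      rw [MvPolynomial.eval₂_rename]
      congr 1
      funext j
      simp
    refine alg_main φ hφ m (P ∘ σ) (lam ∘ σ) (h ∘ σ) (fun j => hP _) (fun j => hlam _) hmono
      (MvPolynomial.rename σ.symm Q) ?_ ?_
    · rw [e]
      exact hnc'
    · rw [e]
      exact hline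

end

/-- constant coefficients -/
theorem alg_const {m : ℕ} {P : Fin m → Polynomial ℂ} {lam h : Fin m → ℝ} (hP : ∀ j, P j ≠ 0)
    (hlam : ∀ j, 0 < lam j) (hinj : Function.Injective lam) {Q : MvPolynomial (Fin m) ℂ}
    (hnc : ∃ t₁ t₂ : ℝ, MvPolynomial.eval (fun j => uu (P j) (lam j) (h j) (t₁ * Complex.I)) Q ≠
      MvPolynomial.eval (fun j => uu (P j) (lam j) (h j) (t₂ * Complex.I)) Q) :
    LH ↔ Sml fun t => MvPolynomial.eval (fun j => uu (P j) (lam j) (h j) (t * Complex.I)) Q := by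
  refine alg_fin (fun _ => RingHom.id ℂ) (fun x₁ r => Co.const r) (fun r z => analyticAt_const) hP hlam hinj
    (Q := Q) ?_
  intro r
  obtain ⟨t₁, t₂, ht⟩ := hnc
  by_contra hcon
  push Not at hcon
  exact ht ((hcon t₁).trans (hcon t₂).symm)

/-! ### exponential coefficients -/

lemma exp_co {x₁ ν : ℝ} (hν : 0 ≤ ν) : Co x₁ fun z => Complex.exp (-(ν * z)) := by
  have hbd : ∀ (x : ℝ) (z : ℂ), x ≤ z.re → ‖Complex.exp (-(ν * z))‖ ≤ Real.exp (-(ν * x)) := by
    intro x z hz
    rw [exp_norm]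
    refine Real.exp_le_exp.2 ?_
    have := mul_le_mul_of_nonneg_left hz hν
    linarith
  refine ⟨?_, ⟨0, fun z _ => by fun_prop⟩, ⟨0, Real.exp (-(ν * 0)), fun z hz => ⟨by fun_prop, hbd 0 z hz⟩⟩,
    ⟨1, zero_le_one, Bd.of_bdd one_pos (hbd 0)⟩, fun x ε _ hε => Bd.of_bdd hε (hbd x)⟩
  intro V
  refine ⟨Unit, inferInstance, fun _ => 1, fun _ => ν, 0, 0, fun _ => hν, le_rfl, le_rfl, fun z _ => ?_⟩
  simp

lemma exp_ring_co {n : ℕ} {ν : Fin n → ℝ} (hν : ∀ i, 0 ≤ ν i) (x₁ : ℝ) (r : MvPolynomial (Fin n) ℂ) :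
    Co x₁ fun z => MvPolynomial.eval (fun i => Complex.exp (-(ν i * z))) r := by
  induction r using MvPolynomial.induction_on with
  | C c => simpa using Co.const c
  | add p q hp hq => simpa using hp.add hq
  | mul_X p i hp => simpa using hp.mul (exp_co (hν i))

lemma exp_ring_an {n : ℕ} (ν : Fin n → ℝ) (r : MvPolynomial (Fin n) ℂ) (z : ℂ) :
    AnalyticAt ℂ (fun z => MvPolynomial.eval (fun i => Complex.exp (-(ν i * z))) r) z := by
  induction r using MvPolynomial.induction_on with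
  | C c =>
    simp only [MvPolynomial.eval_C]
    exact analyticAt_const
  | add p q hp hq =>
    simp only [map_add]
    exact hp.add hq
  | mul_X p i hp =>
    have h1 : AnalyticAt ℂ (fun z => Complex.exp (-(ν i * z))) z := by fun_prop
    simp only [map_mul, MvPolynomial.eval_X]
    exact hp.mul h1

/-- trigonometric polynomials -/
def Trig (f : ℝ → ℂ) : Prop := ∃ (ι : Type) (_ : Fintype ι) (c : ι → ℂ) (ω : ι → ℝ),
  ∀ t : ℝ, f t = ∑ i, c i * Complex.exp (ω i * t * Complex.I)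

lemma Trig.add {f g : ℝ → ℂ} (hf : Trig f) (hg : Trig g) : Trig fun t => f t + g t := by
  obtain ⟨ι, _, c, ω, h⟩ := hf
  obtain ⟨κ, _, d, μ, k⟩ := hg
  refine ⟨ι ⊕ κ, inferInstance, Sum.elim c d, Sum.elim ω μ, fun t => ?_⟩
  simp only
  rw [Fintype.sum_sum_type, h, k]
  simp

lemma Trig.mul {f g : ℝ → ℂ} (hf : Trig f) (hg : Trig g) : Trig fun t => f t * g t := by
  obtain ⟨ι, _, c, ω, h⟩ := hf
  obtain ⟨κ, _, d, μ, k⟩ := hg
  refine ⟨ι × κ, inferInstance, fun p => c p.1 * d p.2, fun p => ω p.1 + μ p.2, fun t => ?_⟩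
  simp only
  rw [h, k, Finset.sum_mul_sum, Fintype.sum_prod_type]
  refine Finset.sum_congr rfl fun i _ => Finset.sum_congr rfl fun j _ => ?_
  rw [show (((ω i + μ j : ℝ) : ℂ) * t * Complex.I) = ω i * t * Complex.I + μ j * t * Complex.I by push_cast; ring,
    Complex.exp_add]
  ring

lemma Trig.exp (c : ℂ) (ω : ℝ) : Trig fun t => c * Complex.exp (ω * t * Complex.I) :=
  ⟨Unit, inferInstance, fun _ => c, fun _ => ω, fun t => by simp⟩

lemma Trig.const (c : ℂ) : Trig fun _ => c := by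
  have := Trig.exp c 0
  simpa using this

lemma Trig.fin {f : ℝ → ℂ} (hf : Trig f) : ∃ (n : ℕ) (c : Fin n → ℂ) (ω : Fin n → ℝ),
    ∀ t : ℝ, f t = ∑ i, c i * Complex.exp (ω i * t * Complex.I) := by
  obtain ⟨ι, _, c, ω, h⟩ := hf
  refine ⟨Fintype.card ι, c ∘ (Fintype.equivFin ι).symm, ω ∘ (Fintype.equivFin ι).symm, fun t => ?_⟩
  rw [h]
  exact (Equiv.sum_comp (Fintype.equivFin ι).symm fun i => c i * Complex.exp (ω i * t * Complex.I)).symm

lemma exp_ring_trig {n : ℕ} (ν : Fin n → ℝ) (r : MvPolynomial (Fin n) ℂ) :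
    Trig fun t : ℝ => MvPolynomial.eval (fun i => Complex.exp (-(ν i * ((t : ℂ) * Complex.I)))) r := by
  induction r using MvPolynomial.induction_on with
  | C c => simpa using Trig.const c
  | add p q hp hq => simpa using hp.add hq
  | mul_X p i hp =>
    have h1 := Trig.exp 1 (-(ν i))
    have h2 : (fun t : ℝ => (1 : ℂ) * Complex.exp (((-(ν i) : ℝ) : ℂ) * t * Complex.I)) =
        fun t : ℝ => Complex.exp (-(ν i * ((t : ℂ) * Complex.I))) := by
      funext t
      rw [one_mul]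
      congr 1
      push_cast
      ring
    rw [h2] at h1
    simpa using hp.mul h1

/-- the elements of the ring generated by dilates and exponentials -/
noncomputable def FS {m n : ℕ} (P : Fin m → Polynomial ℂ) (lam h : Fin m → ℝ) (c : Fin n → ℂ) (ω : Fin n → ℝ)
    (k : Fin n → Fin m → ℕ) (t : ℝ) : ℂ :=
  ∑ i, c i * Complex.exp (ω i * t * Complex.I) * ∏ j, uu (P j) (lam j) (h j) (t * Complex.I) ^ k i j

theorem alg_exp {m n : ℕ} {P : Fin m → Polynomial ℂ} {lam h : Fin m → ℝ} (hP : ∀ j, P j ≠ 0)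
    (hlam : ∀ j, 0 < lam j) (hinj : Function.Injective lam) {c : Fin n → ℂ} {ω : Fin n → ℝ}
    {k : Fin n → Fin m → ℕ} (hnt : ¬ Trig (FS P lam h c ω k)) : LH ↔ Sml (FS P lam h c ω k) := by
  set V : ℝ := ∑ i, |ω i| with hV
  set ν : Fin n → ℝ := fun i => V - ω i with hν
  have hν0 : ∀ i, 0 ≤ ν i := by
    intro i
    have h1 : |ω i| ≤ V := Finset.single_le_sum (f := fun i => |ω i|) (fun i _ => abs_nonneg _) (Finset.mem_univ i)
    have h2 := le_abs_self (ω i)
    show 0 ≤ V - ω i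
    linarith
  set φ : ℂ → MvPolynomial (Fin n) ℂ →+* ℂ := fun z => MvPolynomial.eval fun i => Complex.exp (-(ν i * z)) with hφ
  set Q : MvPolynomial (Fin m) (MvPolynomial (Fin n) ℂ) :=
    ∑ i, MvPolynomial.C (MvPolynomial.C (c i) * MvPolynomial.X i) * ∏ j, MvPolynomial.X j ^ k i j with hQ
  have hPQ : ∀ t : ℝ, PQ φ P lam h Q (t * Complex.I) = Complex.exp (-(V * t * Complex.I)) * FS P lam h c ω k t := by
    intro t
    unfold PQ FS
    rw [hQ, MvPolynomial.eval₂_sum, Finset.mul_sum]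
    refine Finset.sum_congr rfl fun i _ => ?_
    rw [MvPolynomial.eval₂_mul, MvPolynomial.eval₂_C, MvPolynomial.eval₂_prod]
    have e1 : φ (t * Complex.I) (MvPolynomial.C (c i) * MvPolynomial.X i) =
        Complex.exp (-(V * t * Complex.I)) * (c i * Complex.exp (ω i * t * Complex.I)) := by
      have e2 : Complex.exp (-(ν i * ((t : ℂ) * Complex.I))) =
          Complex.exp (-(V * t * Complex.I)) * Complex.exp (ω i * t * Complex.I) := by
        rw [← Complex.exp_add]
        congr 1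
        rw [hν]
        push_cast
        ring
      rw [hφ]
      simp only [map_mul, MvPolynomial.eval_C, MvPolynomial.eval_X]
      rw [e2]
      ring
    rw [e1, mul_assoc]
    refine congrArg₂ _ rfl (congrArg₂ _ rfl ?_)
    refine Finset.prod_congr rfl fun j _ => ?_
    rw [MvPolynomial.eval₂_pow, MvPolynomial.eval₂_X]
  have hnorm : ∀ t : ℝ, ‖PQ φ P lam h Q (t * Complex.I)‖ = ‖FS P lam h c ω k t‖ := by
    intro t
    rw [hPQ, norm_mul, Complex.norm_exp]
    simp
  have h1 := alg_fin φ (fun x₁ r => exp_ring_co hν0 x₁ r) (fun r z => exp_ring_an ν r z) hP hlam hinj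
    (h := h) (Q := Q) (by
      intro r
      by_contra hcon
      push Not at hcon
      apply hnt
      have h2 := (Trig.exp 1 V).mul (exp_ring_trig ν r)
      refine (congrArg Trig (funext fun t => ?_)).mp h2
      have h3 := hcon t
      rw [hPQ] at h3
      have h4 : φ (t * Complex.I) r = MvPolynomial.eval (fun i => Complex.exp (-(ν i * ((t : ℂ) * Complex.I)))) r := rfl
      rw [← h4, ← h3, one_mul, ← mul_assoc, ← Complex.exp_add, add_neg_cancel, Complex.exp_zero, one_mul])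
  rw [h1]
  unfold Sml
  simp only [hnorm]

end Pool.Agent.K7.H52.DL
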