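import Pool.Agent.K7.H52.DL.Base

/-!
Linear combinations of dilates.
-/

set_option autoImplicit false

open Filter Topology Set Metric

namespace Pool.Agent.K7.H52.DL

open Pool.Agent.K7.H52.SP

lemma Bd.sum {ι : Type*} (s : Finset ι) {x b : ℝ} (hb : 0 ≤ b) {f : ι → ℂ → ℂ} (h : ∀ j ∈ s, Bd x b (f j)) :
    ∀ ε : ℝ, 0 < ε → Bd x (b + ε) (fun z => ∑ j ∈ s, f j z) := by
  classical
  induction s using Finset.induction_on with
  | empty =>
    intro ε hε
    simp only [Finset.sum_empty]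
    exact (Bd.const hε 0).mono le_rfl (by linarith)
  | insert a s ha ih =>
    intro ε hε
    have h1 := ih (fun j hj => h j (Finset.mem_insert_of_mem hj)) (ε / 2) (by positivity)
    have h2 := (h a (Finset.mem_insert_self a s)).mono le_rfl (show b ≤ b + ε / 2 by linarith)
    have h3 := h2.add (show 0 < ε / 2 by positivity) h1
    have e : (fun z => ∑ j ∈ insert a s, f j z) = fun z => f a z + ∑ j ∈ s, f j z := by
      funext z
      rw [Finset.sum_insert ha]
    rw [e]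
    exact h3.mono le_rfl (by linarith)

/-- the value of `P(D) ζ` at `1/2 + lam z + i h` -/
noncomputable def uu (P : Polynomial ℂ) (lam h : ℝ) (z : ℂ) : ℂ :=
  DD P (lam * z + (1 / 2 + h * Complex.I))

lemma uu_re (h : ℝ) : (1 / 2 + (h : ℂ) * Complex.I).re = 1 / 2 := by simp

lemma uu_im (h : ℝ) : (1 / 2 + (h : ℂ) * Complex.I).im = h := by simp

lemma uu_an (P : Polynomial ℂ) {lam h : ℝ} {z : ℂ} (hz : (lam * z + (1 / 2 + h * Complex.I) : ℂ) ≠ 1) :
    AnalyticAt ℂ (uu P lam h) z := by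
  unfold uu
  exact AnalyticAt.comp (g := DD P) (f := fun z : ℂ => (lam * z + (1 / 2 + h * Complex.I) : ℂ))
    (DD_an P hz) (by fun_prop)

lemma arg_ne_im {lam h : ℝ} (hlam : 0 < lam) {z : ℂ} (hz : |h| / lam < z.im) :
    (lam * z + (1 / 2 + h * Complex.I) : ℂ) ≠ 1 := by
  apply ne_one_of_im'
  rw [div_lt_iff₀ hlam] at hz
  have := neg_abs_le h
  simp
  linarith

lemma arg_ne_re {lam h : ℝ} {z : ℂ} (hz : lam * z.re ≠ 1 / 2) :
    (lam * z + (1 / 2 + h * Complex.I) : ℂ) ≠ 1 := by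
  intro h1
  have h2 := congrArg Complex.re h1
  simp at h2
  apply hz
  linarith

/-- zeta from `P(D) ζ` -/
lemma zeta_of_DD {P : Polynomial ℂ} (hP : P ≠ 0) {x b ε : ℝ} (hb : 0 ≤ b) (hε : 0 < ε) (h : Bd x b (DD P)) :
    Bd x (b + ε) riemannZeta := by
  obtain ⟨l, c, hc, hl⟩ := DD_op hP
  obtain ⟨C, hC, hint⟩ := op_int l |x| 2 le_rfl (abs_nonneg x)
  obtain ⟨M, hM0, hM⟩ := H448R2.GC.X1.zeta_bdd
  have hc0 : 0 < ‖c‖ := norm_pos_iff.2 hc
  intro W hW
  obtain ⟨T₁, h1, h2⟩ := h W hW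
  obtain ⟨T₂, h3, h4⟩ := absorb (C * (1 + 1 / ‖c‖) + M) hε
  refine ⟨T₁ + T₂ + W + 1, by linarith, fun T hT z hz hz2 => ?_⟩
  have hzW := abs_le.1 hz2
  have hT3 : 3 ≤ T := by linarith
  have hL0 : 0 < Real.log T := Real.log_pos (by linarith)
  have hbe : 1 ≤ Real.exp (b * Real.log T) := Real.one_le_exp (by positivity)
  have h5 := h4 T (by linarith)
  have hC1 : 0 ≤ C * (1 + 1 / ‖c‖) := by positivity
  rcases le_total 2 z.re with h6 | h6
  · calc ‖riemannZeta z‖ ≤ M := hM z (by linarith)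
      _ ≤ Real.exp (ε * Real.log T) := by linarith
      _ ≤ _ := Real.exp_le_exp.2 (by nlinarith)
  · have h7 := hint z.im z.re ((1 + 1 / ‖c‖) * Real.exp (b * Real.log T)) (by linarith) (by
        have := neg_abs_le x
        linarith) (by
        have : 0 < 1 / ‖c‖ := by positivity
        nlinarith) (fun s hs1 hs2 hs3 => by
        have h8 := h2 T (by linarith) s (by linarith) (by rw [hs1]; exact hz2)
        rw [hl s (ne_one_of_im' (by rw [hs1]; linarith)), norm_mul] at h8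
        have h9 : ‖op l s‖ ≤ 1 / ‖c‖ * Real.exp (b * Real.log T) := by
          rw [div_mul_eq_mul_div, one_mul, le_div_iff₀ hc0]
          linarith
        have : 0 ≤ Real.exp (b * Real.log T) := (Real.exp_pos _).le
        linarith) z rfl le_rfl h6
    calc ‖riemannZeta z‖ ≤ C * ((1 + 1 / ‖c‖) * Real.exp (b * Real.log T)) := h7
      _ = (C * (1 + 1 / ‖c‖)) * Real.exp (b * Real.log T) := by ring
      _ ≤ Real.exp (ε * Real.log T) * Real.exp (b * Real.log T) := by
          gcongr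
          linarith
      _ = _ := by rw [← Real.exp_add]; congr 1; ring

lemma DD_of_uu {P : Polynomial ℂ} {lam h : ℝ} (hlam : 0 < lam) {y b ε : ℝ} (hb : 0 ≤ b) (hε : 0 < ε)
    (H : Bd (y / lam) b (uu P lam h)) : Bd (1 / 2 + y) (b + ε) (DD P) := by
  have h1 := H.affine (lam := 1 / lam) (by positivity) hb hε (-((1 / 2 + h * Complex.I) / lam))
  have hl0 : (lam : ℂ) ≠ 0 := by exact_mod_cast hlam.ne'
  have e1 : (fun z : ℂ => uu P lam h (((1 / lam : ℝ) : ℂ) * z + -((1 / 2 + h * Complex.I) / lam))) = DD P := by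
    funext z
    unfold uu
    congr 1
    push_cast
    field_simp
    ring
  rw [e1] at h1
  refine h1.mono (le_of_eq ?_) le_rfl
  have e2 : (-((1 / 2 + (h : ℂ) * Complex.I) / lam)).re = -(1 / 2 / lam) := by
    rw [Complex.neg_re, Complex.div_ofReal_re, uu_re]
  rw [e2]
  field_simp
  ring

lemma uu_of_DD {P : Polynomial ℂ} {lam h : ℝ} (hlam : 0 < lam) {y b ε : ℝ} (hb : 0 ≤ b) (hε : 0 < ε)
    (H : Bd (1 / 2 + y) b (DD P)) : Bd (y / lam) (b + ε) (uu P lam h) := by
  have h1 := H.affine hlam hb hε (1 / 2 + h * Complex.I)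
  rw [uu_re] at h1
  refine h1.mono (le_of_eq ?_) le_rfl
  ring

/-- the exponent -/
def Bz (κ y : ℝ) : Prop := ∀ y' : ℝ, y < y' → ∀ ε : ℝ, 0 < ε →
  Bd (1 / 2 + y') (κ * max (1 - 2 * y') 0 + ε) riemannZeta

lemma Bz_half {κ : ℝ} (hκ : 0 ≤ κ) : Bz κ (1 / 2) := by
  intro y' hy ε hε
  refine (zeta_right (by linarith) hε).mono le_rfl ?_
  have : 0 ≤ κ * max (1 - 2 * y') 0 := mul_nonneg hκ (le_max_right _ _)
  linarith

/-- the family of dilates -/
noncomputable def FL {m : ℕ} (P : Fin (m + 1) → Polynomial ℂ) (lam h : Fin (m + 1) → ℝ) (z : ℂ) : ℂ :=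
  ∑ j, uu (P j) (lam j) (h j) z

lemma FL_split {m : ℕ} (P : Fin (m + 1) → Polynomial ℂ) (lam h : Fin (m + 1) → ℝ) (z : ℂ) :
    FL P lam h z = uu (P 0) (lam 0) (h 0) z +
      ∑ j : Fin m, uu (P j.succ) (lam j.succ) (h j.succ) z := by
  unfold FL
  rw [Fin.sum_univ_succ]

lemma FL_growth {m : ℕ} (P : Fin (m + 1) → Polynomial ℂ) {lam : Fin (m + 1) → ℝ} (h : Fin (m + 1) → ℝ)
    (hlam : ∀ j, 0 < lam j) : ∃ B : ℝ, 0 ≤ B ∧ Bd 0 B (FL P lam h) := by
  have h1 : ∀ j, ∃ B : ℝ, 0 ≤ B ∧ Bd 0 B (uu (P j) (lam j) (h j)) := by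
    intro j
    obtain ⟨B, hB, hB2⟩ := DD_growth (P j) 0
    refine ⟨B + 1, by linarith, ?_⟩
    have := uu_of_DD (y := 0) (h := h j) (hlam j) hB one_pos (hB2.mono (by norm_num) le_rfl)
    rwa [zero_div] at this
  choose B hB hB2 using h1
  refine ⟨∑ j, B j + 1, by have := Finset.sum_nonneg fun j (_ : j ∈ Finset.univ) => hB j; linarith, ?_⟩
  refine Bd.sum Finset.univ (Finset.sum_nonneg fun j _ => hB j) (fun j hj => (hB2 j).mono le_rfl ?_) 1 one_pos
  exact Finset.single_le_sum (f := B) (fun i _ => hB i) hj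

lemma FL_right {m : ℕ} (P : Fin (m + 1) → Polynomial ℂ) {lam : Fin (m + 1) → ℝ} (h : Fin (m + 1) → ℝ)
    (hlam : ∀ j, 0 < lam j) (hmin : ∀ j, lam 0 ≤ lam j) {ρ ε : ℝ} (hρ : 0 < ρ) (hε : 0 < ε) :
    Bd ((1 / 2 + ρ) / lam 0) ε (FL P lam h) := by
  have h1 : ∀ j ∈ (Finset.univ : Finset (Fin (m + 1))),
      Bd ((1 / 2 + ρ) / lam 0) (ε / 2) (uu (P j) (lam j) (h j)) := by
    intro j _
    have h2 := DD_small (P := P j) (zeta_right (ϑ := 1 + ρ / 2) (ε := ε / 8) (by linarith) (by positivity))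
      (show 0 < ρ / 2 by positivity) (show 0 < ε / 8 by positivity)
    have h3 := uu_of_DD (y := 1 / 2 + ρ) (h := h j) (hlam j) (by positivity) (show 0 < ε / 8 by positivity)
      (h2.mono (le_of_eq (by ring)) le_rfl)
    refine h3.mono ?_ (by linarith)
    have := hmin j
    have := hlam 0
    gcongr
  have := Bd.sum Finset.univ (by positivity) h1 (ε / 2) (by positivity)
  rwa [add_halves] at this

lemma FL_an {m : ℕ} (P : Fin (m + 1) → Polynomial ℂ) {lam : Fin (m + 1) → ℝ} (h : Fin (m + 1) → ℝ)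
    (hlam : ∀ j, 0 < lam j) : ∃ H : ℝ, ∀ z : ℂ, H < z.im → AnalyticAt ℂ (FL P lam h) z := by
  refine ⟨∑ j, |h j| / lam j, fun z hz => ?_⟩
  have : FL P lam h = fun z => ∑ j, uu (P j) (lam j) (h j) z := rfl
  rw [this]
  refine Finset.analyticAt_fun_sum _ fun j hj => uu_an _ (arg_ne_im (hlam j) (lt_of_le_of_lt ?_ hz))
  exact Finset.single_le_sum (f := fun j => |h j| / lam j) (fun i _ => div_nonneg (abs_nonneg _) (hlam i).le) hj

theorem lin_step {m : ℕ} {P : Fin (m + 1) → Polynomial ℂ} {lam h : Fin (m + 1) → ℝ}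
    (hlam : ∀ j, 0 < lam j) (hP : P 0 ≠ 0) {q : ℝ} (hq : 1 < q) (hmin : ∀ j : Fin m, q * lam 0 ≤ lam j.succ)
    {κ : ℝ} (hκ : 0 ≤ κ) (hline : ∀ ε : ℝ, 0 < ε → Ln 0 (κ + ε) (FL P lam h)) {y : ℝ} (hy : 0 < y)
    (H : Bz κ y) : Bz κ (y / q) := by
  intro y'' hy'' ε hε
  have h0 := hlam 0
  have hq0 : 0 < q := by linarith
  have hyq : 0 < y / q := by positivity
  -- parameters
  set ρ : ℝ := min (min ((y'' - y / q) / 2) (ε / (16 * (κ + 1)))) (1 / 2) with hρ
  have hρ0 : 0 < ρ := lt_min (lt_min (by linarith) (by positivity)) (by norm_num)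
  have hρ1 : ρ ≤ (y'' - y / q) / 2 := (min_le_left _ _).trans (min_le_left _ _)
  have hρ2 : ρ ≤ ε / (16 * (κ + 1)) := (min_le_left _ _).trans (min_le_right _ _)
  have hρ3 : ρ ≤ 1 / 2 := min_le_right _ _
  have hκρ : κ * ρ ≤ ε / 16 := by
    rw [le_div_iff₀ (by positivity)] at hρ2
    nlinarith
  set y₁ : ℝ := y'' - ρ with hy₁
  have hy₁q : y / q < y₁ := by linarith
  have hy₁0 : 0 < y₁ := by linarith
  have hqy : y < q * y₁ := by
    rw [div_lt_iff₀ hq0] at hy₁q
    linarith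
  set r : ℝ := min ((q - 1) * y₁) ((q * y₁ - y) / 2) with hr
  have hr0 : 0 < r := lt_min (by have : 0 < q - 1 := by linarith
                                 positivity) (by linarith)
  have hr1 : r ≤ (q - 1) * y₁ := min_le_left _ _
  have hr2 : r ≤ (q * y₁ - y) / 2 := min_le_right _ _
  set e : ℝ := ε / 16 with he
  have he0 : 0 < e := by positivity
  set μ : ℝ := κ * max (1 - 2 * y₁) 0 with hμ
  have hμ0 : 0 ≤ μ := mul_nonneg hκ (le_max_right _ _)
  -- the other dilates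
  have hoth : ∀ j ∈ (Finset.univ : Finset (Fin m)),
      Bd (y₁ / lam 0) (μ + 3 * e) (fun z => -uu (P j.succ) (lam j.succ) (h j.succ) z) := by
    intro j _
    have h1 := H (q * y₁ - r) (by linarith) e he0
    have h2 := DD_small (P := P j.succ) h1 hr0 he0
    have hμ' : 0 ≤ κ * max (1 - 2 * (q * y₁ - r)) 0 := mul_nonneg hκ (le_max_right _ _)
    have h3 := uu_of_DD (y := q * y₁) (h := h j.succ) (hlam j.succ) (by positivity) he0
      (h2.mono (le_of_eq (by ring)) le_rfl)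
    refine (h3.mono ?_ ?_).neg
    · rw [div_le_div_iff₀ (hlam _) h0]
      have := hmin j
      nlinarith
    · have : κ * max (1 - 2 * (q * y₁ - r)) 0 ≤ μ := by
        rw [hμ]
        gcongr
        linarith
      linarith
  have hsum := Bd.sum Finset.univ (by positivity) hoth e he0
  -- the sum
  have hF : Bd (y₁ / lam 0) (μ + 4 * κ * ρ + 3 * e) (FL P lam h) := by
    have hright := FL_right P h hlam (fun j => by
      refine Fin.cases le_rfl (fun i => ?_) j
      have := hmin i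
      nlinarith) hρ0 he0
    rcases le_total (1 / 2 + ρ) y₁ with h1 | h1
    · refine hright.mono (by gcongr) ?_
      have : 0 ≤ 4 * κ * ρ := by positivity
      linarith
    · obtain ⟨B, hB, hgr⟩ := FL_growth P h hlam
      obtain ⟨Hn, hHn⟩ := FL_an P h hlam
      have h2 := pl (F := FL P lam h) (a := 0) (X := (1 / 2 + ρ) / lam 0) (H := Hn) (by positivity)
        (fun z _ hz => (hHn z hz).differentiableAt) hgr (hline e he0) hright (by linarith)
        (x := y₁ / lam 0) (by positivity) (by gcongr) he0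
      refine h2.mono le_rfl ?_
      have h3 : (y₁ / lam 0 - 0) / ((1 / 2 + ρ) / lam 0 - 0) = y₁ / (1 / 2 + ρ) := by
        rw [sub_zero, sub_zero, div_div_div_cancel_right₀ h0.ne']
      rw [h3]
      have h4 : y₁ / (1 / 2 + ρ) ≥ 2 * y₁ - 4 * ρ := by
        rw [ge_iff_le, le_div_iff₀ (by positivity)]
        nlinarith
      have h5 : κ * (1 - 2 * y₁) ≤ μ := by
        rw [hμ]
        gcongr
        exact le_max_left _ _
      have h6 : κ * (2 * y₁ - 4 * ρ) ≤ κ * (y₁ / (1 / 2 + ρ)) := by gcongr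
      nlinarith
  -- the smallest dilate
  have h0' : Bd (y₁ / lam 0) (μ + 4 * κ * ρ + 5 * e) (uu (P 0) (lam 0) (h 0)) := by
    have h1 := (hF.mono le_rfl (show μ + 4 * κ * ρ + 3 * e ≤ μ + 4 * κ * ρ + 4 * e by linarith)).add he0
      (hsum.mono le_rfl (show μ + 3 * e + e ≤ μ + 4 * κ * ρ + 4 * e by
        have : 0 ≤ 4 * κ * ρ := by positivity
        linarith))
    refine (h1.mono le_rfl (le_of_eq (by ring))).congr (H := 0) fun z _ _ => ?_
    rw [FL_split, Finset.sum_neg_distrib]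
    ring
  have h1 := zeta_of_DD hP (by positivity) he0 (DD_of_uu (h0) (by positivity) he0 h0')
  refine h1.mono (by linarith) ?_
  have h2 : μ ≤ κ * max (1 - 2 * y'') 0 + 2 * (κ * ρ) := by
    rw [hμ]
    have h3 : max (1 - 2 * y₁) 0 ≤ max (1 - 2 * y'') 0 + 2 * ρ := by
      refine max_le ?_ ?_
      · have := le_max_left (1 - 2 * y'') 0
        linarith
      · have := le_max_right (1 - 2 * y'') 0
        linarith
    calc κ * max (1 - 2 * y₁) 0 ≤ κ * (max (1 - 2 * y'') 0 + 2 * ρ) := by gcongr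
      _ = _ := by ring
  have h3 : 4 * κ * ρ = 4 * (κ * ρ) := by ring
  rw [h3]
  linarith

/-- the growth on the line -/
theorem gr_of_Bz {κ : ℝ} (hκ : 0 ≤ κ) (H : Bz κ 0) : Gr κ := by
  intro ε hε
  set d : ℝ := min (ε / 4) (1 / 4) with hd
  have hd0 : 0 < d := lt_min (by positivity) (by norm_num)
  have hd1 : d ≤ ε / 4 := min_le_left _ _
  have hd2 : d ≤ 1 / 4 := min_le_right _ _
  set e : ℝ := ε / 4 with he
  have he0 : 0 < e := by positivity
  obtain ⟨B, hB, hgr⟩ := zeta_growth 0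
  have hright : Bd (1 / 2 + d) (κ + e) riemannZeta := by
    refine (H d hd0 e he0).mono le_rfl ?_
    have : max (1 - 2 * d) 0 ≤ 1 := max_le (by linarith) zero_le_one
    nlinarith
  have hleft : Ln (1 / 2 - d) (κ + d + 2 * e) riemannZeta := by
    intro W hW
    obtain ⟨T₁, h1, h2⟩ := hright W hW
    obtain ⟨T₂, h3, h4⟩ := fe_window W he0
    refine ⟨max T₁ T₂, h1.trans (le_max_left _ _), fun T hT z hz hz2 => ?_⟩
    set s : ℂ := ⟨1 - z.re, z.im⟩ with hs
    have hsre : s.re = 1 - z.re := rfl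
    have h5 := (h4 T ((le_max_right _ _).trans hT) s z (by rw [hsre]; linarith)
      (by rw [hsre]; linarith) hz2 (by rw [hsre]; ring) rfl).1
    have h6 := h2 T ((le_max_left _ _).trans hT) s (by rw [hsre]; linarith) hz2
    rw [hsre, hz] at h5
    calc ‖riemannZeta z‖ ≤ Real.exp ((1 - (1 / 2 - d) - 1 / 2 + e) * Real.log T) * ‖riemannZeta s‖ := h5
      _ ≤ Real.exp ((1 - (1 / 2 - d) - 1 / 2 + e) * Real.log T) * Real.exp ((κ + e) * Real.log T) := by
          gcongr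
      _ = _ := by rw [← Real.exp_add]; congr 1; ring
  have h1 := pl (F := riemannZeta) (a := 1 / 2 - d) (X := 1 / 2 + d) (H := 0) (by linarith)
    (fun z _ hz => (zeta_an (ne_one_of_im' hz)).differentiableAt) (hgr.mono (by linarith) le_rfl)
    hleft hright (by linarith) (x := 1 / 2) (by linarith) (by linarith) he0
  obtain ⟨T₀, h2, h3⟩ := h1 0 le_rfl
  have hκε : 0 < κ + ε := by linarith
  obtain ⟨C, hC⟩ := small_of_large (σ := 1 / 2) hκε (T₀ := T₀) (fun T hT => by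
    have h4 := h3 T hT (((1 / 2 : ℝ) : ℂ) + T * Complex.I) (by simp) (by simp)
    refine h4.trans ?_
    have hT3 : 3 ≤ T := h2.trans hT
    have hL0 : 0 < Real.log T := Real.log_pos (by linarith)
    rw [← exp_mul_log (by linarith)]
    refine Real.exp_le_exp.2 (mul_le_mul_of_nonneg_right ?_ hL0.le)
    have h5 : 0 ≤ (1 / 2 - (1 / 2 - d)) / (1 / 2 + d - (1 / 2 - d)) := by
      apply div_nonneg <;> linarith
    have h6 : (κ + e - (κ + d + 2 * e)) * ((1 / 2 - (1 / 2 - d)) / (1 / 2 + d - (1 / 2 - d))) ≤ 0 :=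
      mul_nonpos_of_nonpos_of_nonneg (by linarith) h5
    linarith)
  refine ⟨C, fun t ht => ?_⟩
  have := hC t ht
  rwa [show (((1 / 2 : ℝ) : ℂ)) = 1 / 2 by push_cast; ring] at this

lemma Bz_zero_of_step {κ : ℝ} (hκ : 0 ≤ κ) {q : ℝ} (hq : 1 < q) (h : ∀ y : ℝ, 0 < y → Bz κ y → Bz κ (y / q)) :
    Bz κ 0 := by
  have hn : ∀ n : ℕ, Bz κ (1 / 2 / q ^ n) := by
    intro n
    induction n with
    | zero =>
      rw [pow_zero, div_one]
      exact Bz_half hκ
    | succ n ih =>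
      have := h _ (by positivity) ih
      rwa [div_div, ← pow_succ] at this
  intro y' hy' ε hε
  have h1 : Tendsto (fun n : ℕ => (1 : ℝ) / 2 / q ^ n) atTop (𝓝 0) :=
    tendsto_const_nhds.div_atTop (tendsto_pow_atTop_atTop_of_one_lt hq)
  obtain ⟨n, hn'⟩ := (h1.eventually_lt_const hy').exists
  exact hn n y' hn' ε hε

lemma exists_ratio {m : ℕ} {lam : Fin (m + 1) → ℝ} (h0 : 0 < lam 0) (h : ∀ j : Fin m, lam 0 < lam j.succ) :
    ∃ q : ℝ, 1 < q ∧ ∀ j : Fin m, q * lam 0 ≤ lam j.succ := by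
  rcases isEmpty_or_nonempty (Fin m) with hem | hne
  · exact ⟨2, by norm_num, fun j => (hem.false j).elim⟩
  · obtain ⟨j₀, hj₀⟩ := Finite.exists_min fun j : Fin m => lam j.succ
    refine ⟨lam j₀.succ / lam 0, ?_, fun j => ?_⟩
    · rw [one_lt_div h0]
      exact h j₀
    · rw [div_mul_cancel₀ _ h0.ne']
      exact hj₀ j

/-- bounds with constants from `Ln` -/
lemma bound_of_ln {F : ℂ → ℂ} {b : ℝ} (hb : 0 ≤ b) (hc : Continuous fun t : ℝ => F (t * Complex.I)) (H : Ln 0 b F) :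
    ∃ C : ℝ, ∀ t : ℝ, 1 ≤ t → ‖F (t * Complex.I)‖ ≤ C * t ^ b := by
  obtain ⟨T₀, h1, h2⟩ := H 0 le_rfl
  obtain ⟨M, hM⟩ := isCompact_Icc.exists_bound_of_continuousOn (s := Icc 1 T₀) hc.continuousOn
  refine ⟨max M 1, fun t ht => ?_⟩
  have ht1 : 1 ≤ t ^ b := Real.one_le_rpow ht hb
  rcases le_total t T₀ with h | h
  · calc ‖F (t * Complex.I)‖ ≤ M := hM t ⟨ht, h⟩
      _ ≤ max M 1 * 1 := by rw [mul_one]; exact le_max_left _ _
      _ ≤ _ := by
          have : 0 ≤ max M 1 := zero_le_one.trans (le_max_right _ _)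
          gcongr
  · have h3 := h2 t h (t * Complex.I) (by simp) (by simp)
    rw [exp_mul_log (by linarith)] at h3
    have h4 := le_max_right M 1
    nlinarith

lemma uu_cont (P : Polynomial ℂ) (lam h : ℝ) : Continuous fun t : ℝ => uu P lam h (t * Complex.I) := by
  rw [continuous_iff_continuousAt]
  intro t
  have h1 : ContinuousAt (uu P lam h) ((t : ℂ) * Complex.I) :=
    (uu_an P (arg_ne_re (by simp))).continuousAt
  exact ContinuousAt.comp (f := fun t : ℝ => (t : ℂ) * Complex.I) h1 (by fun_prop)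

lemma uu_of_gr {P : Polynomial ℂ} {lam h κ ε : ℝ} (hlam : 0 < lam) (hκ : 0 ≤ κ) (hε : 0 < ε) (H : Gr κ) :
    Bd 0 (κ + ε) (uu P lam h) := by
  set d : ℝ := min (ε / 4 / 4) (1 / 2) with hd
  have hd0 : 0 < d := lt_min (by positivity) (by norm_num)
  have h1 := zeta_of_gr hκ H (show 0 < ε / 4 by positivity)
  rw [← hd] at h1
  have h2 := DD_small (P := P) h1 hd0 (show 0 < ε / 4 by positivity)
  have h3 := uu_of_DD (y := 0) (h := h) hlam (by positivity) (show 0 < ε / 4 by positivity)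
    (h2.mono (le_of_eq (by ring)) le_rfl)
  rw [zero_div] at h3
  exact h3.mono le_rfl (by linarith)

/-- linear combinations of dilates -/
theorem lin_main {m : ℕ} {P : Fin (m + 1) → Polynomial ℂ} {lam h : Fin (m + 1) → ℝ}
    (h0 : 0 < lam 0) (hlt : ∀ j : Fin m, lam 0 < lam j.succ) (hP : P 0 ≠ 0) {κ : ℝ} (hκ : 0 ≤ κ) :
    Gr κ ↔ ∀ ε : ℝ, 0 < ε → ∃ C : ℝ, ∀ t : ℝ, 1 ≤ t → ‖FL P lam h (t * Complex.I)‖ ≤ C * t ^ (κ + ε) := by
  have hlam : ∀ j, 0 < lam j := fun j => by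
    refine Fin.cases h0 (fun i => ?_) j
    exact h0.trans (hlt i)
  constructor
  · intro H ε hε
    refine bound_of_ln (by positivity) ?_ ?_
    · unfold FL
      exact continuous_finsetSum _ fun j _ => uu_cont _ _ _
    · have := Bd.sum Finset.univ (f := fun j => uu (P j) (lam j) (h j)) (by positivity)
        (fun j _ => uu_of_gr (P := P j) (h := h j) (hlam j) hκ (show 0 < ε / 2 by positivity) H) (ε / 2)
        (by positivity)
      refine (this.mono le_rfl (le_of_eq ?_)).ln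
      ring
  · intro H
    obtain ⟨q, hq, hmin⟩ := exists_ratio h0 hlt
    have hline : ∀ ε : ℝ, 0 < ε → Ln 0 (κ + ε) (FL P lam h) := fun ε hε =>
      ln_of_bound hκ (x := 0) (fun e he => by
        obtain ⟨C, hC⟩ := H e he
        refine ⟨C, fun t ht => ?_⟩
        have := hC t ht
        rwa [Complex.ofReal_zero, zero_add]) hε
    exact gr_of_Bz hκ (Bz_zero_of_step hκ hq fun y hy hB =>
      lin_step hlam hP hq hmin hκ hline hy hB)

end Pool.Agent.K7.H52.DL
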